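import Mathlib

/-!
# Uniformly definable properties

A property of tuples of elements of structures of a language `L` is uniformly definable if it is
given by a single formula in all structures.  Closure properties, the transfer of uniformly
definable statements between elementarily equivalent structures, and saturation in terms of
uniformly definable properties.
-/

set_option autoImplicit false

open FirstOrder FirstOrder.Language Set

namespace Pool.Agent.Lib.MP_491b55_lc.Pos

variable {L : FirstOrder.Language.{0, 0}} {α β : Type}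

/-- A property of tuples which is given by one formula in all structures. -/
def UDef (L : FirstOrder.Language.{0, 0}) {α : Type} (P : ∀ (M : Type) [L.Structure M], (α → M) → Prop) : Prop :=
  ∃ φ : L.Formula α, ∀ (M : Type) [L.Structure M] (v : α → M), φ.Realize v ↔ P M v

/-- A function of tuples which is given by one term in all structures. -/
def UFun (L : FirstOrder.Language.{0, 0}) {α : Type} (f : ∀ (M : Type) [L.Structure M], (α → M) → M) : Prop :=
  ∃ t : L.Term α, ∀ (M : Type) [L.Structure M] (v : α → M), t.realize v = f M v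

theorem UFun.var (a : α) : UFun L fun _M _ v => v a := ⟨Term.var a, fun _ _ _ => rfl⟩

theorem UFun.fn {n : ℕ} (g : L.Functions n) {f : Fin n → ∀ (M : Type) [L.Structure M], (α → M) → M}
    (hf : ∀ i, UFun L (f i)) :
    UFun L fun M _ v => Structure.funMap g fun i => f i M v := by
  choose t ht using hf
  refine ⟨Term.func g t, fun M _ v => ?_⟩
  rw [Term.realize_func]
  congr 1
  funext i
  exact ht i M v

theorem UFun.fn0 (g : L.Functions 0) : UFun L (α := α) fun M _ _ => (Structure.funMap g ![] : M) := by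
  refine ⟨Term.func g ![], fun M _ v => ?_⟩
  rw [Term.realize_func]
  congr 1
  funext i
  exact i.elim0

theorem UFun.fn1 (g : L.Functions 1) {f : ∀ (M : Type) [L.Structure M], (α → M) → M}
    (hf : UFun L f) : UFun L fun M _ v => Structure.funMap g ![f M v] := by
  obtain ⟨t, ht⟩ := hf
  refine ⟨Term.func g ![t], fun M _ v => ?_⟩
  rw [Term.realize_func]
  congr 1
  funext i
  fin_cases i
  exact ht M v

theorem UFun.fn2 (g : L.Functions 2) {f f' : ∀ (M : Type) [L.Structure M], (α → M) → M}
    (hf : UFun L f) (hf' : UFun L f') :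
    UFun L fun M _ v => Structure.funMap g ![f M v, f' M v] := by
  obtain ⟨t, ht⟩ := hf
  obtain ⟨t', ht'⟩ := hf'
  refine ⟨Term.func g ![t, t'], fun M _ v => ?_⟩
  rw [Term.realize_func]
  congr 1
  funext i
  fin_cases i
  · exact ht M v
  · exact ht' M v

namespace UDef

theorem congr {P Q : ∀ (M : Type) [L.Structure M], (α → M) → Prop} (h : UDef L P)
    (hPQ : ∀ (M : Type) [L.Structure M] (v : α → M), P M v ↔ Q M v) : UDef L Q := by
  obtain ⟨φ, hφ⟩ := h
  exact ⟨φ, fun M _ v => (hφ M v).trans (hPQ M v)⟩

theorem const (p : Prop) : UDef L (α := α) fun _M _ _v => p := by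
  by_cases h : p
  · exact ⟨⊤, fun M _ v => by simp [h]⟩
  · exact ⟨⊥, fun M _ v => by simp [h, Formula.Realize]⟩

theorem not {P : ∀ (M : Type) [L.Structure M], (α → M) → Prop} (h : UDef L P) :
    UDef L fun M _ v => ¬ P M v := by
  obtain ⟨φ, hφ⟩ := h
  exact ⟨φ.not, fun M _ v => by rw [Formula.realize_not, hφ]⟩

theorem and {P Q : ∀ (M : Type) [L.Structure M], (α → M) → Prop} (h : UDef L P) (h' : UDef L Q) :
    UDef L fun M _ v => P M v ∧ Q M v := by
  obtain ⟨φ, hφ⟩ := h
  obtain ⟨ψ, hψ⟩ := h'
  exact ⟨φ ⊓ ψ, fun M _ v => by rw [Formula.realize_inf, hφ, hψ]⟩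

theorem imp {P Q : ∀ (M : Type) [L.Structure M], (α → M) → Prop} (h : UDef L P) (h' : UDef L Q) :
    UDef L fun M _ v => P M v → Q M v := by
  obtain ⟨φ, hφ⟩ := h
  obtain ⟨ψ, hψ⟩ := h'
  exact ⟨φ.imp ψ, fun M _ v => by rw [Formula.realize_imp, hφ, hψ]⟩

theorem or {P Q : ∀ (M : Type) [L.Structure M], (α → M) → Prop} (h : UDef L P) (h' : UDef L Q) :
    UDef L fun M _ v => P M v ∨ Q M v :=
  (imp (not h) h').congr fun _ _ _ => or_iff_not_imp_left.symm

theorem iff {P Q : ∀ (M : Type) [L.Structure M], (α → M) → Prop} (h : UDef L P) (h' : UDef L Q) :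
    UDef L fun M _ v => (P M v ↔ Q M v) :=
  (and (imp h h') (imp h' h)).congr fun _ _ _ => iff_def.symm

/-- Finite conjunctions. -/
theorem all {ι : Type} [Finite ι] {P : ι → ∀ (M : Type) [L.Structure M], (α → M) → Prop}
    (h : ∀ i, UDef L (P i)) : UDef L fun M _ v => ∀ i, P i M v := by
  choose φ hφ using h
  exact ⟨Formula.iInf φ, fun M _ v => by
    rw [Formula.realize_iInf]
    exact forall_congr' fun i => hφ i M v⟩

/-- Finite disjunctions. -/
theorem any {ι : Type} [Finite ι] {P : ι → ∀ (M : Type) [L.Structure M], (α → M) → Prop}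
    (h : ∀ i, UDef L (P i)) : UDef L fun M _ v => ∃ i, P i M v :=
  (not (all fun i => not (h i))).congr fun _ _ _ => by simp

/-- A Boolean combination of finitely many uniformly definable properties. -/
theorem mem {ι : Type} [Finite ι] {P : ι → ∀ (M : Type) [L.Structure M], (α → M) → Prop}
    (h : ∀ i, UDef L (P i)) (W : Set (Set ι)) : UDef L fun M _ v => {i | P i M v} ∈ W := by
  classical
  have : UDef L fun M _ v => ∃ w : Set ι, w ∈ W ∧ ∀ i, (P i M v ↔ i ∈ w) :=
    any fun w => and (const _) (all fun i => iff (h i) (const _))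
  refine this.congr fun M _ v => ?_
  constructor
  · rintro ⟨w, hw, hi⟩
    have : {i | P i M v} = w := by
      ext i
      exact hi i
    rwa [this]
  · intro hw
    exact ⟨_, hw, fun i => Iff.rfl⟩

/-- Quantification over a finite tuple. -/
theorem exs [Finite β] {P : ∀ (M : Type) [L.Structure M], (α → M) → (β → M) → Prop}
    (h : UDef L (α := α ⊕ β) fun M _ w => P M (fun a => w (Sum.inl a)) fun b => w (Sum.inr b)) :
    UDef L fun M _ v => ∃ u : β → M, P M v u := by
  obtain ⟨φ, hφ⟩ := h
  refine ⟨φ.iExs β, fun M _ v => ?_⟩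
  rw [Formula.realize_iExs]
  exact exists_congr fun u => hφ M (Sum.elim v u)

/-- Quantification over a finite tuple. -/
theorem alls [Finite β] {P : ∀ (M : Type) [L.Structure M], (α → M) → (β → M) → Prop}
    (h : UDef L (α := α ⊕ β) fun M _ w => P M (fun a => w (Sum.inl a)) fun b => w (Sum.inr b)) :
    UDef L fun M _ v => ∀ u : β → M, P M v u := by
  obtain ⟨φ, hφ⟩ := h
  refine ⟨φ.iAlls β, fun M _ v => ?_⟩
  rw [Formula.realize_iAlls]
  exact forall_congr' fun u => hφ M (Sum.elim v u)

/-- Existential quantification. -/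
theorem ex {P : ∀ (M : Type) [L.Structure M], (α → M) → M → Prop}
    (h : UDef L (α := α ⊕ Unit) fun M _ w => P M (fun a => w (Sum.inl a)) (w (Sum.inr ()))) :
    UDef L fun M _ v => ∃ x : M, P M v x := by
  refine (exs (β := Unit) (P := fun M _ v u => P M v (u ())) h).congr fun M _ v => ?_
  exact ⟨fun ⟨u, hu⟩ => ⟨u (), hu⟩, fun ⟨x, hx⟩ => ⟨fun _ => x, hx⟩⟩

/-- Universal quantification. -/
theorem fa {P : ∀ (M : Type) [L.Structure M], (α → M) → M → Prop}
    (h : UDef L (α := α ⊕ Unit) fun M _ w => P M (fun a => w (Sum.inl a)) (w (Sum.inr ()))) :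
    UDef L fun M _ v => ∀ x : M, P M v x := by
  refine (alls (β := Unit) (P := fun M _ v u => P M v (u ())) h).congr fun M _ v => ?_
  exact ⟨fun h x => h fun _ => x, fun h u => h (u ())⟩

theorem eq {f g : ∀ (M : Type) [L.Structure M], (α → M) → M} (hf : UFun L f) (hg : UFun L g) :
    UDef L fun M _ v => f M v = g M v := by
  obtain ⟨t, ht⟩ := hf
  obtain ⟨s, hs⟩ := hg
  exact ⟨t.equal s, fun M _ v => by rw [Formula.realize_equal, ht, hs]⟩

theorem rel2 (R : L.Relations 2) {f g : ∀ (M : Type) [L.Structure M], (α → M) → M}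
    (hf : UFun L f) (hg : UFun L g) :
    UDef L fun M _ v => Structure.RelMap R ![f M v, g M v] := by
  obtain ⟨t, ht⟩ := hf
  obtain ⟨s, hs⟩ := hg
  exact ⟨R.formula₂ t s, fun M _ v => by rw [Formula.realize_rel₂, ht, hs]⟩

/-- Substitution in a formula. -/
theorem form (φ : L.Formula β) {f : β → ∀ (M : Type) [L.Structure M], (α → M) → M}
    (hf : ∀ b, UFun L (f b)) : UDef L fun M _ v => φ.Realize fun b => f b M v := by
  choose t ht using hf
  refine ⟨φ.subst t, fun M _ v => ?_⟩
  unfold Formula.Realize
  rw [BoundedFormula.realize_subst]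
  simp only [ht]

/-- Substitution in a formula with two groups of variables. -/
theorem formSum {γ δ : Type} (φ : L.Formula (γ ⊕ δ))
    {f : γ → ∀ (M : Type) [L.Structure M], (α → M) → M}
    {g : δ → ∀ (M : Type) [L.Structure M], (α → M) → M}
    (hf : ∀ b, UFun L (f b)) (hg : ∀ b, UFun L (g b)) :
    UDef L fun M _ v => φ.Realize (Sum.elim (fun b => f b M v) fun b => g b M v) := by
  refine (form φ (f := Sum.elim f g) (fun b => ?_)).congr fun M _ v => ?_
  · rcases b with b | b
    · exact hf b
    · exact hg b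
  · have : (fun b => (Sum.elim f g b) M v) =
        Sum.elim (fun b => f b M v) fun b => g b M v := by
      funext b
      rcases b with b | b <;> rfl
    rw [this]

/-- Transfer between structures with the same complete theory. -/
theorem transfer {P : ∀ (M : Type) [L.Structure M], Prop}
    (h : UDef L (α := Empty) fun M _ _ => P M)
    {S M : Type} [L.Structure S] [L.Structure M] (hM : M ⊨ L.completeTheory S) (hS : P S) :
    P M := by
  obtain ⟨φ, hφ⟩ := h
  have h1 : (φ : L.Sentence) ∈ L.completeTheory S := by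
    rw [mem_completeTheory]
    exact (hφ S default).2 hS
  exact (hφ M default).1 ((Theory.model_iff _).1 hM φ h1)

/-- The set defined by a uniformly definable property with parameters from `A`. -/
theorem definable {ι : Type} {P : ∀ (M : Type) [L.Structure M], (α → M) → (ι → M) → Prop}
    (h : UDef L (α := α ⊕ ι) fun M _ w => P M (fun a => w (Sum.inl a)) fun b => w (Sum.inr b))
    (M : Type) [L.Structure M] {A : Set M} (c : α → M) (hc : ∀ a, c a ∈ A) :
    A.Definable L {v : ι → M | P M c v} := by
  obtain ⟨φ, hφ⟩ := h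
  rw [Set.definable_iff_exists_formula_sum]
  refine ⟨φ.relabel (Sum.map (fun a => (⟨c a, hc a⟩ : A)) id), ?_⟩
  ext v
  rw [mem_ofPred_eq, mem_ofPred_eq, Formula.realize_relabel, hφ]
  rfl

end UDef

end Pool.Agent.Lib.MP_491b55_lc.Pos
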