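import Pool.Agent.Lib.MP_491b55_lc.Defs
import Pool.Agent.Lib.MP_491b55_lc.Pos.UDef

/-!
# Saturation in terms of definable sets
-/

set_option autoImplicit false

open FirstOrder FirstOrder.Language Set Cardinal

namespace Pool.Agent.Lib.MP_491b55_lc.Pos

variable {L : FirstOrder.Language.{0, 0}} {M : Type} [L.Structure M] {κ : Cardinal.{0}}

/-- A family of definable sets with the finite intersection property has a common element. -/
theorem sat_one (h : IsSaturated L M κ) {A : Set M} (hA : #A < κ) {ι : Type} (P : ι → M → Prop)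
    (hP : ∀ i, A.Definable L {v : Unit → M | P i (v ())})
    (hfin : ∀ F : Finset ι, ∃ x, ∀ i ∈ F, P i x) : ∃ x, ∀ i, P i x := by
  classical
  have hP' : ∀ i, ∃ φ : L.Formula (A ⊕ Unit), ∀ x : M,
      P i x ↔ φ.Realize (Sum.elim (fun a : A => (a : M)) fun _ => x) := by
    intro i
    obtain ⟨φ, hφ⟩ := Set.definable_iff_exists_formula_sum.1 (hP i)
    exact ⟨φ, fun x => Set.ext_iff.1 hφ fun _ => x⟩
  choose φ hφ using hP'
  obtain ⟨x, hx⟩ := h A hA (Set.range φ) (by
    intro q hq
    choose g hg using hq
    obtain ⟨x, hx⟩ := hfin (q.attach.image fun ψ : {ψ // ψ ∈ q} => g ψ.1 ψ.2)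
    refine ⟨x, fun ψ hψ => ?_⟩
    have := hx (g ψ hψ) (Finset.mem_image.2 ⟨⟨ψ, hψ⟩, Finset.mem_attach _ _, rfl⟩)
    rwa [hφ, hg] at this)
  exact ⟨x, fun i => (hφ i x).2 (hx _ ⟨i, rfl⟩)⟩

/-- The same for sets of tuples. -/
theorem sat_tuple (h : IsSaturated L M κ) (hκ : ℵ₀ ≤ κ) :
    ∀ (k : ℕ) {A : Set M}, #A < κ → ∀ {ι : Type} (P : ι → Set (Fin k → M)),
      (∀ i, A.Definable L (P i)) → (∀ F : Finset ι, ∃ x, ∀ i ∈ F, x ∈ P i) → ∃ x, ∀ i, x ∈ P i := by
  intro k
  induction k with
  | zero =>
    intro A _ ι P _ hfin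
    refine ⟨Fin.elim0, fun i => ?_⟩
    obtain ⟨x, hx⟩ := hfin {i}
    have : (Fin.elim0 : Fin 0 → M) = x := by
      funext j
      exact j.elim0
    rw [this]
    exact hx i (Finset.mem_singleton_self i)
  | succ k ih =>
    intro A hA ι P hP hfin
    classical
    obtain ⟨y, hy⟩ := sat_one h hA (ι := Finset ι)
      (fun F y => ∃ x : Fin k → M, ∀ i ∈ F, (Fin.cons y x : Fin (k + 1) → M) ∈ P i) (by
        intro F
        have h1 : A.Definable L {w : Unit ⊕ Fin k → M | ∀ i ∈ F,
            (Fin.cons (w (Sum.inl ())) (fun j => w (Sum.inr j)) : Fin (k + 1) → M) ∈ P i} := by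
          have h2 : ∀ i, A.Definable L {w : Unit ⊕ Fin k → M |
              (Fin.cons (w (Sum.inl ())) (fun j => w (Sum.inr j)) : Fin (k + 1) → M) ∈ P i} := by
            intro i
            have h3 := (hP i).preimage_comp
              (Fin.cons (Sum.inl ()) Sum.inr : Fin (k + 1) → Unit ⊕ Fin k)
            convert h3 using 1
            ext w
            simp only [mem_ofPred_eq, mem_preimage]
            have : (Fin.cons (w (Sum.inl ())) fun j => w (Sum.inr j) : Fin (k + 1) → M) =
                w ∘ (Fin.cons (Sum.inl ()) Sum.inr : Fin (k + 1) → Unit ⊕ Fin k) := by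
              funext j
              refine Fin.cases ?_ (fun j => ?_) j <;> simp
            rw [this]
          have h4 := Set.definable_biInter_finset h2 F
          convert h4 using 1
          ext w
          simp
        exact Set.Definable.exists_of_finite h1) (by
        intro 𝓕
        obtain ⟨x, hx⟩ := hfin (𝓕.biUnion id)
        refine ⟨x 0, fun F hF => ⟨fun j => x j.succ, fun i hi => ?_⟩⟩
        have : (Fin.cons (x 0) fun j : Fin k => x j.succ : Fin (k + 1) → M) = x := by
          funext j
          refine Fin.cases ?_ (fun j => ?_) j <;> simp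
        rw [this]
        exact hx i (Finset.mem_biUnion.2 ⟨F, hF, hi⟩))
    have hA' : #(insert y A : Set M) < κ :=
      lt_of_le_of_lt Cardinal.mk_insert_le
        (Cardinal.add_lt_of_lt hκ hA (lt_of_lt_of_le Cardinal.one_lt_aleph0 hκ))
    obtain ⟨x, hx⟩ := ih hA' (fun i => {x : Fin k → M | (Fin.cons y x : Fin (k + 1) → M) ∈ P i})
      (by
        intro i
        have h1 : (insert y A : Set M).Definable L (P i) := (hP i).mono (subset_insert y A)
        have h2 : (insert y A : Set M).DefinableMap L
            (fun x : Fin k → M => (Fin.cons y x : Fin (k + 1) → M)) := by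
          intro j
          refine Fin.cases ?_ (fun j => ?_) j
          · simp only [Fin.cons_zero]
            exact definableFun_const L _ (mem_insert y A)
          · simp only [Fin.cons_succ]
            exact Set.DefinableFun.proj L
        exact h1.preimage_map h2) (by
        intro F
        exact hy F)
    exact ⟨Fin.cons y x, hx⟩

end Pool.Agent.Lib.MP_491b55_lc.Pos
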