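import Pool.Agent.Lib.MP_491b55_lc.Pos.Lang
import Pool.Agent.Lib.MP_491b55_lc.Pos.Sat

/-!
# Nonstandard initial segments are large
-/

set_option autoImplicit false

open FirstOrder FirstOrder.Language Set Cardinal

namespace Pool.Agent.Lib.MP_491b55_lc.Pos

variable {L₀ L₁ : FirstOrder.Language.{0, 0}} {m n : ℕ} {S₀ : L₀.Structure ℕ}
  {S₁ : L₁.Structure ℕ} {a : ℕ → Fin m → ℕ} {b : ℕ → Fin n → ℕ}
  {M : Type} [(starLang L₀ L₁ m n).Structure M]

/-- The reduct to the first language is a model. -/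
theorem model₀ (hM : M ⊨ starTheory S₀ S₁ a b) [L₀.Structure M]
    [(hom₀ L₀ L₁ m n).IsExpansionOn M] {T : L₀.Theory} (hT : @Theory.Model L₀ ℕ S₀ T) :
    M ⊨ T := by
  rw [Theory.model_iff]
  intro σ hσ
  have h1 : @Sentence.Realize L₀ ℕ S₀ σ := (@Theory.model_iff L₀ ℕ S₀ T).1 hT σ hσ
  rw [← LHom.realize_onSentence M (hom₀ L₀ L₁ m n) σ]
  refine (Theory.model_iff _).1 hM _ ?_
  let := stdStr S₀ S₁ a b
  have := expansion₀ (S₀ := S₀) (S₁ := S₁) (a := a) (b := b)
  show (hom₀ L₀ L₁ m n).onSentence σ ∈ (starLang L₀ L₁ m n).completeTheory ℕ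
  rw [mem_completeTheory, LHom.realize_onSentence]
  exact h1

/-- The reduct to the second language is a model. -/
theorem model₁ (hM : M ⊨ starTheory S₀ S₁ a b) [L₁.Structure M]
    [(hom₁ L₀ L₁ m n).IsExpansionOn M] {T : L₁.Theory} (hT : @Theory.Model L₁ ℕ S₁ T) :
    M ⊨ T := by
  rw [Theory.model_iff]
  intro σ hσ
  have h1 : @Sentence.Realize L₁ ℕ S₁ σ := (@Theory.model_iff L₁ ℕ S₁ T).1 hT σ hσ
  rw [← LHom.realize_onSentence M (hom₁ L₀ L₁ m n) σ]
  refine (Theory.model_iff _).1 hM _ ?_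
  let := stdStr S₀ S₁ a b
  have := expansion₁ (S₀ := S₀) (S₁ := S₁) (a := a) (b := b)
  show (hom₁ L₀ L₁ m n).onSentence σ ∈ (starLang L₀ L₁ m n).completeTheory ℕ
  rw [mem_completeTheory, LHom.realize_onSentence]
  exact h1

/-- A nonstandard element has a nonstandard predecessor. -/
theorem nonstd_pred (hM : M ⊨ starTheory S₀ S₁ a b) {x : M}
    (hx : ∀ k, lt L₀ L₁ m n (cst L₀ L₁ m n k) x) :
    ∃ y, lt L₀ L₁ m n y x ∧ ∀ k, lt L₀ L₁ m n (cst L₀ L₁ m n k) y := by
  obtain ⟨y, hy, hyz⟩ := exists_pred hM x (fun h => by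
    have := hx 0
    rw [h] at this
    exact lt_irrefl' hM _ this)
  refine ⟨y, hy, fun k => ?_⟩
  have h1 := hyz (cst L₀ L₁ m n (k + 1))
  have h2 : ¬ lt L₀ L₁ m n y (cst L₀ L₁ m n (k + 1)) := fun h => h1 ⟨h, hx _⟩
  have h3 := cst_lt hM (Nat.lt_succ_self k)
  rcases lt_total' hM y (cst L₀ L₁ m n (k + 1)) with h | h | h
  · exact absurd h h2
  · rw [h]; exact h3
  · exact lt_trans' hM _ _ _ h3 h

/-- If the second reduct is `κ`-saturated then nonstandard initial segments have at least `κ`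
elements. -/
theorem claimA (hM : M ⊨ starTheory S₀ S₁ a b) [L₁.Structure M]
    [(hom₁ L₀ L₁ m n).IsExpansionOn M] (φ : L₁.Formula (Fin m ⊕ Fin n))
    (hφ : ∀ i j, @Formula.Realize L₁ ℕ S₁ _ φ (Sum.elim (a i) (b j)) ↔ i < j)
    {κ : Cardinal.{0}} (hκ : ℵ₀ ≤ κ) (hsat : IsSaturated L₁ M κ) {N : M}
    (hN : ∀ k, lt L₀ L₁ m n (cst L₀ L₁ m n k) N) :
    κ ≤ #{x : M // lt L₀ L₁ m n x N} := by
  by_contra hcon
  have hcard : #{x : M // lt L₀ L₁ m n x N} < κ := not_le.1 hcon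
  let B : M → Fin n → M := fun j r => fB L₀ L₁ m n r j
  let A : Set M := Set.range fun p : Fin n × {x : M // lt L₀ L₁ m n x N} => B p.2.1 p.1
  have hA : #A < κ := by
    refine Cardinal.mk_range_le.trans_lt ?_
    rw [Cardinal.mk_prod, Cardinal.lift_id, Cardinal.lift_id]
    refine Cardinal.mul_lt_of_lt hκ ?_ hcard
    rw [Cardinal.mk_fin]
    exact (Cardinal.natCast_lt_aleph0).trans_le hκ
  have hord : ∀ x y : M, φ.Realize (Sum.elim (fun r => fA L₀ L₁ m n r x) (B y)) ↔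
      lt L₀ L₁ m n x y := by
    intro x y
    have := order_prop hM φ hφ x y
    rwa [LHom.realize_onFormula] at this
  obtain ⟨u, hu⟩ := sat_tuple hsat hκ m hA (ι := {x : M // lt L₀ L₁ m n x N})
    (fun i => {u : Fin m → M | φ.Realize (Sum.elim u (B i.1)) ↔
      ∀ k, lt L₀ L₁ m n (cst L₀ L₁ m n k) i.1}) (by
      intro i
      have h1 : A.Definable L₁ {u : Fin m → M | φ.Realize (Sum.elim u (B i.1))} :=
        UDef.definable (L := L₁) (α := Fin n) (ι := Fin m)
          (P := fun M _ v u => φ.Realize (Sum.elim u v))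
          (UDef.formSum φ (fun r => UFun.var _) fun r => UFun.var _) M (B i.1)
          fun r => ⟨(r, i), rfl⟩
      by_cases h : ∀ k, lt L₀ L₁ m n (cst L₀ L₁ m n k) i.1
      · convert h1 using 1
        ext u
        simp only [mem_ofPred_eq]
        exact iff_true_right h
      · convert h1.compl using 1
        ext u
        simp only [mem_ofPred_eq, mem_compl_iff]
        exact iff_false_right h) (by
      intro F
      classical
      let g : {x : M // lt L₀ L₁ m n x N} → ℕ := fun i =>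
        if h : ∃ k, ¬ lt L₀ L₁ m n (cst L₀ L₁ m n k) i.1 then h.choose else 0
      have hg : ∀ i : {x : M // lt L₀ L₁ m n x N}, (∃ k, ¬ lt L₀ L₁ m n (cst L₀ L₁ m n k) i.1) →
          ¬ lt L₀ L₁ m n (cst L₀ L₁ m n (g i)) i.1 := by
        intro i h
        simp only [g, dif_pos h]
        exact h.choose_spec
      refine ⟨fun r => fA L₀ L₁ m n r (cst L₀ L₁ m n (F.sup g)), fun i hi => ?_⟩
      show φ.Realize (Sum.elim _ (B i.1)) ↔ _
      rw [hord]
      refine ⟨fun h => ?_, fun h => h _⟩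
      by_contra hno
      push Not at hno
      refine hg i hno ?_
      rcases (Finset.le_sup (f := g) hi).lt_or_eq with h1 | h1
      · exact lt_trans' hM _ _ _ (cst_lt hM h1) h
      · rw [h1]; exact h)
  -- the standard cut is definable
  obtain ⟨N', hN', hN'k⟩ := nonstd_pred hM hN
  have h1 : φ.Realize (Sum.elim u (B N')) := (hu ⟨N', hN'⟩).2 hN'k
  have h1' : ((hom₁ L₀ L₁ m n).onFormula φ).Realize
      (Sum.elim u fun r => fB L₀ L₁ m n r N') := by
    rw [LHom.realize_onFormula]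
    exact h1
  obtain ⟨j, hj, hmin⟩ := exists_least hM φ u N' h1'
  rw [LHom.realize_onFormula] at hj
  have hjN : lt L₀ L₁ m n j N := by
    rcases lt_total' hM j N' with h | h | h
    · exact lt_trans' hM _ _ _ h hN'
    · rw [h]; exact hN'
    · exact absurd h1' (hmin N' h)
  have hjk : ∀ k, lt L₀ L₁ m n (cst L₀ L₁ m n k) j := (hu ⟨j, hjN⟩).1 hj
  obtain ⟨j', hj', hj'k⟩ := nonstd_pred hM hjk
  have h2 : φ.Realize (Sum.elim u (B j')) :=
    (hu ⟨j', lt_trans' hM _ _ _ hj' hjN⟩).2 hj'k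
  refine hmin j' hj' ?_
  rw [LHom.realize_onFormula]
  exact h2

end Pool.Agent.Lib.MP_491b55_lc.Pos
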