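import Pool.Agent.Lib.MP_491b55_lc.Defs
import Pool.Agent.Lib.MP_491b55_lc.Pos.UDef

/-!
# Stable theories: bounded ladders and definability of types

Types are given by ultrafilters on the model.
-/

set_option autoImplicit false

open FirstOrder FirstOrder.Language Set Filter

namespace Pool.Agent.Lib.MP_491b55_lc.Pos

/-- The order property for a formula with arbitrary finite tuples of variables. -/
theorem unstable_of {T : CTheory} {M : Type} [T.lang.Structure M] [Nonempty M] (hM : M ⊨ T.theory)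
    {γ δ : Type} [Finite γ] [Finite δ] (φ : T.lang.Formula (γ ⊕ δ)) (a : ℕ → γ → M)
    (b : ℕ → δ → M) (h : ∀ i j, φ.Realize (Sum.elim (a i) (b j)) ↔ i < j) : T.Unstable := by
  obtain ⟨m, ⟨e⟩⟩ := Finite.exists_equiv_fin γ
  obtain ⟨n, ⟨f⟩⟩ := Finite.exists_equiv_fin δ
  refine ⟨M, inferInstance, inferInstance, hM, m, n, φ.relabel (Sum.map e f),
    fun i k => a i (e.symm k), fun j k => b j (f.symm k), fun i j => ?_⟩
  rw [Formula.realize_relabel]
  have : (Sum.elim (fun k => a i (e.symm k)) fun k => b j (f.symm k)) ∘ Sum.map e f =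
      Sum.elim (a i) (b j) := by
    funext k
    rcases k with k | k <;> simp
  rw [this]
  exact h i j

/-- The class of a sequence in the ultrapower. -/
def cls {I M : Type} (𝒰 : Ultrafilter I) (x : I → M) : (𝒰 : Filter I).Product fun _ => M :=
  (x : (𝒰 : Filter I).Product fun _ => M)

theorem realize_cls {L : FirstOrder.Language.{0, 0}} {I M : Type} [L.Structure M] [Nonempty M]
    (𝒰 : Ultrafilter I) {β : Type} (φ : L.Formula β) (x : β → I → M) :
    (φ.Realize fun b => cls 𝒰 (x b)) ↔ ∀ᶠ i in (𝒰 : Filter I), φ.Realize fun b => x b i :=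
  Ultraproduct.realize_formula_cast φ x

/-- Ladders of a formula have bounded length in a stable theory. -/
theorem ladder_bound {T : CTheory} (hT : T.Stable) {M : Type} [T.lang.Structure M] [Nonempty M]
    (hM : M ⊨ T.theory) {γ : Type} [Finite γ] (ψ : T.lang.Formula (γ ⊕ Unit)) :
    ∃ K : ℕ, ∀ (x : ℕ → M) (y : ℕ → γ → M),
      ¬ ∀ i < K, ∀ j < K, (ψ.Realize (Sum.elim (y j) fun _ => x i) ↔ i < j) := by
  by_contra hcon
  push Not at hcon
  choose x y hxy using hcon
  have hN : ((hyperfilter ℕ : Ultrafilter ℕ) : Filter ℕ).Product (fun _ : ℕ => M) ⊨ T.theory := by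
    rw [Theory.model_iff]
    intro φ hφ
    rw [Ultraproduct.sentence_realize]
    exact Eventually.of_forall fun i => (Theory.model_iff _).1 hM φ hφ
  refine hT (unstable_of hN (ψ.relabel Sum.swap)
    (fun i _ => cls (hyperfilter ℕ) fun K => x K i)
    (fun j c => cls (hyperfilter ℕ) fun K => y K j c) fun i j => ?_)
  rw [Formula.realize_relabel]
  have h2 : (Sum.elim (fun _ : Unit => cls (hyperfilter ℕ) fun K => x K i)
      (fun c : γ => cls (hyperfilter ℕ) fun K => y K j c)) ∘ Sum.swap =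
      fun b => cls (hyperfilter ℕ) ((Sum.elim (fun c K => y K j c) fun _ K => x K i :
        γ ⊕ Unit → ℕ → M) b) := by
    funext k
    rcases k with k | k <;> rfl
  rw [h2, realize_cls]
  have h3 : ∀ᶠ K in ((hyperfilter ℕ : Ultrafilter ℕ) : Filter ℕ),
      ((ψ.Realize fun k => (Sum.elim (fun c K => y K j c)
        (fun _ K => x K i) : γ ⊕ Unit → ℕ → M) k K) ↔ i < j) := by
    have h4 : ∀ᶠ K in ((hyperfilter ℕ : Ultrafilter ℕ) : Filter ℕ), max i j < K :=
      Nat.hyperfilter_le_atTop (eventually_gt_atTop (max i j))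
    filter_upwards [h4] with K hK
    have h5 := hxy K i ((le_max_left _ _).trans_lt hK) j ((le_max_right _ _).trans_lt hK)
    have h6 : (fun k => (Sum.elim (fun c K => y K j c)
      (fun _ K => x K i) : γ ⊕ Unit → ℕ → M) k K) = Sum.elim (y K j) fun _ => x K i := by
      funext k
      rcases k with k | k <;> rfl
    rw [h6]
    exact h5
  constructor
  · intro h
    obtain ⟨K, h6, h7⟩ := (h.and h3).exists
    exact h7.1 h6
  · intro hij
    filter_upwards [h3] with K h6
    exact h6.2 hij

/-- In a stable theory the type of an ultrafilter on a model is definable. -/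
theorem type_definable {T : CTheory} (hT : T.Stable) {M : Type} [T.lang.Structure M] [Nonempty M]
    (hM : M ⊨ T.theory) (U : Ultrafilter M) {γ : Type} [Finite γ]
    (ψ : T.lang.Formula (γ ⊕ Unit)) :
    ∃ (n : ℕ) (a : Fin n → M) (W : Set (Set (Fin n))), ∀ b : γ → M,
      (∀ᶠ x in (U : Filter M), ψ.Realize (Sum.elim b fun _ => x)) ↔
        {i | ψ.Realize (Sum.elim b fun _ => a i)} ∈ W := by
  classical
  by_contra hcon
  push Not at hcon
  let R : (γ → M) → M → Prop := fun b x => ψ.Realize (Sum.elim b fun _ => x)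
  let D : (γ → M) → Prop := fun b => ∀ᶠ x in (U : Filter M), R b x
  have step : ∀ s : Finset M, ∃ b b' : γ → M, D b ∧ ¬ D b' ∧ ∀ x ∈ s, R b x → R b' x := by
    intro s
    let e := s.equivFin
    obtain ⟨b', hb'⟩ := hcon s.card (fun i => (e.symm i : M))
      {w | ∃ b, D b ∧ {i | R b (e.symm i : M)} ⊆ w}
    rcases hb' with ⟨h1, h2⟩ | ⟨h1, h2⟩
    · exact absurd ⟨b', h1, subset_rfl⟩ h2
    · obtain ⟨b, hb, hsub⟩ := h2
      refine ⟨b, b', hb, fun hD => ?_, fun x hx hR => ?_⟩
      · obtain ⟨x, h3, h4⟩ := (hD.and h1).exists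
        exact h4 h3
      · have := @hsub (e ⟨x, hx⟩) (by simpa using hR)
        simpa using this
  obtain ⟨f, hP, hr⟩ := exists_seq_of_forall_finset_exists
    (fun z : M × (γ → M) × (γ → M) => D z.2.1 ∧ ¬ D z.2.2 ∧ R z.2.1 z.1 ∧ ¬ R z.2.2 z.1)
    (fun z w => (R w.2.1 z.1 → R w.2.2 z.1) ∧ R z.2.1 w.1 ∧ ¬ R z.2.2 w.1) (by
      intro s hs
      obtain ⟨d, d', h1, h2, h3⟩ := step (s.image Prod.fst)
      have h4 : ∀ᶠ x in (U : Filter M), ∀ z ∈ s, R z.2.1 x ∧ ¬ R z.2.2 x := by
        rw [Filter.eventually_all_finset]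
        intro z hz
        exact (hs z hz).1.and (Ultrafilter.eventually_not.2 (hs z hz).2.1)
      obtain ⟨c, h5, h6, h7⟩ := (h1.and ((Ultrafilter.eventually_not.2 h2).and h4)).exists
      exact ⟨(c, d, d'), ⟨h1, h2, h5, h6⟩, fun z hz =>
        ⟨h3 z.1 (Finset.mem_image_of_mem _ hz), (h7 z hz).1, (h7 z hz).2⟩⟩)
  -- the formula with the order property
  let θ : T.lang.Formula (Unit ⊕ (γ ⊕ γ)) :=
    (ψ.relabel (Sum.elim (fun c => Sum.inr (Sum.inl c)) Sum.inl)).imp
      (ψ.relabel (Sum.elim (fun c => Sum.inr (Sum.inr c)) Sum.inl))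
  refine hT (unstable_of hM θ (fun i _ => (f i).1) (fun j => Sum.elim (f j).2.1 (f j).2.2)
    fun i j => ?_)
  have hθ : θ.Realize (Sum.elim (fun _ => (f i).1) (Sum.elim (f j).2.1 (f j).2.2)) ↔
      (R (f j).2.1 (f i).1 → R (f j).2.2 (f i).1) := by
    rw [Formula.realize_imp, Formula.realize_relabel, Formula.realize_relabel]
    have e1 : (Sum.elim (fun _ : Unit => (f i).1) (Sum.elim (f j).2.1 (f j).2.2)) ∘
        (Sum.elim (fun c => Sum.inr (Sum.inl c)) Sum.inl) =
        Sum.elim (f j).2.1 fun _ => (f i).1 := by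
      funext k
      rcases k with k | k <;> rfl
    have e2 : (Sum.elim (fun _ : Unit => (f i).1) (Sum.elim (f j).2.1 (f j).2.2)) ∘
        (Sum.elim (fun c => Sum.inr (Sum.inr c)) Sum.inl) =
        Sum.elim (f j).2.2 fun _ => (f i).1 := by
      funext k
      rcases k with k | k <;> rfl
    rw [e1, e2]
  rw [hθ]
  constructor
  · intro h
    by_contra hij
    rcases (not_lt.1 hij).lt_or_eq with h1 | h1
    · exact (hr j i h1).2.2 (h (hr j i h1).2.1)
    · subst h1
      exact (hP j).2.2.2 (h (hP j).2.2.1)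
  · intro hij
    exact (hr i j hij).1

/-- The auxiliary property used for Morley sequences. -/
def Psi {M γ : Type} (D : (γ → M) → Prop) (R : (γ → M) → M → Prop) (l j : ℕ) (y : Fin l → M)
    (x : M) : Prop :=
  ∃ b : γ → M, D b ∧ (∀ t : Fin l, R b (y t) ↔ j ≤ t) ∧ R b x

/-- Along a sequence which is generic for the auxiliary properties, a formula in the type of the
ultrafilter fails only finitely often. -/
theorem finite_exceptions {T : CTheory} (hT : T.Stable) {M : Type} [T.lang.Structure M]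
    [Nonempty M] (hM : M ⊨ T.theory) (U : Ultrafilter M) {γ : Type} [Finite γ]
    (ψ : T.lang.Formula (γ ⊕ Unit)) {I : Type} [LinearOrder I] (e : I → M)
    (he : ∀ (l j : ℕ) (f : Fin l → I) (i : I), (∀ t, f t < i) →
      (∀ᶠ x in (U : Filter M), Psi
        (fun b : γ → M => ∀ᶠ x in (U : Filter M), ψ.Realize (Sum.elim b fun _ => x))
        (fun b x => ψ.Realize (Sum.elim b fun _ => x)) l j (fun t => e (f t)) x) →
      Psi (fun b : γ → M => ∀ᶠ x in (U : Filter M), ψ.Realize (Sum.elim b fun _ => x))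
        (fun b x => ψ.Realize (Sum.elim b fun _ => x)) l j (fun t => e (f t)) (e i))
    (b : γ → M) (hb : ∀ᶠ x in (U : Filter M), ψ.Realize (Sum.elim b fun _ => x)) :
    {i : I | ¬ ψ.Realize (Sum.elim b fun _ => e i)}.Finite := by
  classical
  let R : (γ → M) → M → Prop := fun b x => ψ.Realize (Sum.elim b fun _ => x)
  let D : (γ → M) → Prop := fun b => ∀ᶠ x in (U : Filter M), R b x
  by_contra hinf
  obtain ⟨K, hK⟩ := ladder_bound hT hM ψ.not
  obtain ⟨s, hs, hcard⟩ := (show Set.Infinite _ from hinf).exists_subset_card_eq K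
  let g : Fin K ↪o I := s.orderEmbOfFin hcard
  have hg : ∀ t, ¬ R b (e (g t)) := fun t => hs (Finset.mem_coe.2 (s.orderEmbOfFin_mem hcard t))
  have key : ∀ j l : ℕ, j ≤ l → l ≤ K → ∃ b' : γ → M, D b' ∧
      ∀ t : Fin K, (t : ℕ) < l → (R b' (e (g t)) ↔ j ≤ t) := by
    intro j l hjl
    induction l, hjl using Nat.le_induction with
    | base =>
      intro _
      refine ⟨b, hb, fun t ht => ?_⟩
      exact ⟨fun h => absurd h (hg t), fun h => absurd ht (not_lt.2 h)⟩
    | succ l hjl ih =>
      intro hl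
      obtain ⟨b', hb', hR⟩ := ih (Nat.le_of_succ_le hl)
      let f : Fin l → I := fun t => g ⟨t, t.2.trans hl⟩
      have h1 : ∀ᶠ x in (U : Filter M), Psi D R l j (fun t => e (f t)) x := by
        filter_upwards [hb'] with x hx
        exact ⟨b', hb', fun t => hR ⟨t, t.2.trans hl⟩ t.2, hx⟩
      obtain ⟨b'', h2, h3, h4⟩ := he l j f (g ⟨l, hl⟩) (fun t => by
        apply g.strictMono
        exact t.2) h1
      refine ⟨b'', h2, fun t ht => ?_⟩
      rcases Nat.lt_succ_iff_lt_or_eq.1 ht with h5 | h5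
      · exact h3 ⟨t, h5⟩
      · have h6 : t = ⟨l, hl⟩ := Fin.ext h5
        subst h6
        exact ⟨fun _ => hjl, fun _ => h4⟩
  choose! y hyD hy using fun j => fun hj : j ≤ K => key j K hj le_rfl
  refine hK (fun t => if h : t < K then e (g ⟨t, h⟩) else Classical.arbitrary M) y
    fun i hi j hj => ?_
  rw [Formula.realize_not]
  have h1 := hy j hj.le ⟨i, hi⟩ hi
  simp only [dif_pos hi]
  show ¬ R (y j) (e (g ⟨i, hi⟩)) ↔ i < j
  rw [h1]
  exact not_le

/-- Generic finite sequences exist for finitely many conditions. -/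
theorem exists_generic {M : Type} (U : Ultrafilter M) [Nonempty M] {ι : Type} (F : Finset ι)
    (l : ι → ℕ) (P : ∀ c : ι, (Fin (l c) → M) → M → Prop) :
    ∃ e : ℕ → M, ∀ i : ℕ, ∀ c ∈ F, ∀ f : Fin (l c) → ℕ, (∀ t, f t < i) →
      (∀ᶠ x in (U : Filter M), P c (fun t => e (f t)) x) → P c (fun t => e (f t)) (e i) := by
  classical
  have step : ∀ (i : ℕ) (e : ℕ → M), ∃ x : M, ∀ c ∈ F, ∀ f : Fin (l c) → ℕ, (∀ t, f t < i) →
      (∀ᶠ x in (U : Filter M), P c (fun t => e (f t)) x) → P c (fun t => e (f t)) x := by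
    intro i e
    have h1 : ∀ᶠ x in (U : Filter M), ∀ c ∈ F, ∀ f : Fin (l c) → Fin i,
        (∀ᶠ x in (U : Filter M), P c (fun t => e (f t)) x) → P c (fun t => e (f t)) x := by
      rw [Filter.eventually_all_finset]
      intro c _
      rw [Filter.eventually_all]
      intro f
      by_cases h : ∀ᶠ x in (U : Filter M), P c (fun t => e (f t)) x
      · filter_upwards [h] with x hx _
        exact hx
      · exact Eventually.of_forall fun x h' => absurd h' h
    obtain ⟨x, hx⟩ := h1.exists
    exact ⟨x, fun c hc f hf h => hx c hc (fun t => ⟨f t, hf t⟩) h⟩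
  choose G hG using step
  -- strong recursion
  let e : ℕ → M := fun n => Nat.strongRec (motive := fun _ => M)
    (fun n ih => G n fun k => if h : k < n then ih k h else Classical.arbitrary M) n
  have he : ∀ n, e n = G n fun k => if k < n then e k else Classical.arbitrary M := by
    intro n
    show Nat.strongRec (motive := fun _ => M) _ n = _
    rw [Nat.strongRec_eq]
    congr 1
  refine ⟨e, fun i c hc f hf h => ?_⟩
  have h1 : (fun t => e (f t)) = fun t => (fun k => if k < i then e k else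
      Classical.arbitrary M) (f t) := by
    funext t
    simp only [if_pos (hf t)]
  rw [h1] at h ⊢
  rw [he i]
  exact hG i (fun k => if k < i then e k else Classical.arbitrary M) c hc f hf h

end Pool.Agent.Lib.MP_491b55_lc.Pos
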