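import Pool.Agent.Lib.MP_491b55_lc.Pos.ClaimA
import Pool.Agent.Lib.MP_491b55_lc.Pos.Ladder

/-!
# The first reduct is saturated
-/

set_option autoImplicit false

open FirstOrder FirstOrder.Language Set Cardinal Filter

namespace Pool.Agent.Lib.MP_491b55_lc.Pos

/-- A formula with parameters is an instance of a formula with finitely many variables. -/
theorem exists_fin_form {L : FirstOrder.Language.{0, 0}} {M : Type} [L.Structure M] {α : Type}
    (φ : L.Formula (α ⊕ Unit)) (v : α → M) : ∃ (r : ℕ) (ψ : L.Formula (Fin r ⊕ Unit))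
      (b : Fin r → M), ∀ x, φ.Realize (Sum.elim v fun _ => x) ↔
        ψ.Realize (Sum.elim b fun _ => x) := by
  classical
  let s : Finset α := φ.freeVarFinset.toLeft
  let e := s.equivFin
  let f : φ.freeVarFinset → Fin s.card ⊕ Unit := fun x => Sum.casesOn x.1
    (fun a (h : Sum.inl a ∈ φ.freeVarFinset) => Sum.inl (e ⟨a, Finset.mem_toLeft.2 h⟩))
    (fun u _ => Sum.inr u) x.2
  refine ⟨s.card, φ.restrictFreeVar f, fun i => v (e.symm i), fun x => ?_⟩
  unfold Formula.Realize
  refine (BoundedFormula.realize_restrictFreeVar (Sum.elim v fun _ => x) ?_).symm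
  rintro ⟨a | u, h⟩
  · simp [f]
  · simp [f]

theorem card_formula_lt {L : FirstOrder.Language.{0, 0}} (hf : Countable (Σ n, L.Functions n))
    (hr : Countable (Σ n, L.Relations n)) {α : Type} {κ : Cardinal.{0}} (hκ : ℵ₀ < κ)
    (hα : #α < κ) : #(L.Formula α) < κ := by
  have h1 : #(L.Formula α) ≤ #(Σ n, L.BoundedFormula α n) :=
    Cardinal.mk_le_of_injective (f := fun φ => ⟨0, φ⟩) fun φ ψ h => by simpa using h
  have h2 : L.card ≤ ℵ₀ := by
    have : Countable L.Symbols := inferInstanceAs (Countable ((Σ n, L.Functions n) ⊕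
      (Σ n, L.Relations n)))
    exact Cardinal.mk_le_aleph0
  refine (h1.trans BoundedFormula.card_le).trans_lt ?_
  rw [Cardinal.lift_id, Cardinal.lift_id]
  refine max_lt hκ (Cardinal.add_lt_of_lt hκ.le hα (h2.trans_lt hκ))

/-- The uniform definition of the auxiliary property. -/
theorem exists_psi_formula {L : FirstOrder.Language.{0, 0}} {r k : ℕ}
    (ψ : L.Formula (Fin r ⊕ Unit)) (W : Set (Set (Fin k))) (l j : ℕ) :
    ∃ Ψ : L.Formula ((Fin k ⊕ Fin l) ⊕ Unit), ∀ (M : Type) [L.Structure M] (c : Fin k → M)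
      (y : Fin l → M) (x : M), Ψ.Realize (Sum.elim (Sum.elim c y) fun _ => x) ↔
        Psi (fun b => {i | ψ.Realize (Sum.elim b fun _ => c i)} ∈ W)
          (fun b x => ψ.Realize (Sum.elim b fun _ => x)) l j y x := by
  have h : UDef L (α := (Fin k ⊕ Fin l) ⊕ Unit) fun M _ v =>
      ∃ b : Fin r → M, {i : Fin k | ψ.Realize (Sum.elim b fun _ => v (Sum.inl (Sum.inl i)))} ∈ W ∧
        (∀ t : Fin l, ψ.Realize (Sum.elim b fun _ => v (Sum.inl (Sum.inr t))) ↔ j ≤ t) ∧
        ψ.Realize (Sum.elim b fun _ => v (Sum.inr ())) := by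
    refine UDef.exs (UDef.and (UDef.mem (fun i => ?_) W) (UDef.and (UDef.all fun t => ?_) ?_))
    · exact UDef.formSum ψ (fun _ => UFun.var _) fun _ => UFun.var _
    · exact UDef.iff (UDef.formSum ψ (fun _ => UFun.var _) fun _ => UFun.var _) (UDef.const _)
    · exact UDef.formSum ψ (fun _ => UFun.var _) fun _ => UFun.var _
  obtain ⟨Ψ, hΨ⟩ := h
  exact ⟨Ψ, fun M _ c y x => hΨ M _⟩

section claim

variable {T : CTheory} {L₁ : FirstOrder.Language.{0, 0}} {m n : ℕ} {S₀ : T.lang.Structure ℕ}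
  {S₁ : L₁.Structure ℕ} {a : ℕ → Fin m → ℕ} {b : ℕ → Fin n → ℕ}
  {M : Type} [(starLang T.lang L₁ m n).Structure M]

/-- The genericity condition on a coded sequence. -/
def Cnd (L₀ L₁ : FirstOrder.Language.{0, 0}) (m n : ℕ) {M : Type}
    [(starLang L₀ L₁ m n).Structure M] (U : Ultrafilter M) {l : ℕ} (P : (Fin l → M) → M → Prop)
    (e : M) : Prop :=
  ∀ i : M, lt L₀ L₁ m n i (len L₀ L₁ m n e) → ∀ f : Fin l → M, (∀ t, lt L₀ L₁ m n (f t) i) →
    (∀ᶠ x in (U : Filter M), P (fun t => ev L₀ L₁ m n e (f t)) x) →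
      P (fun t => ev L₀ L₁ m n e (f t)) (ev L₀ L₁ m n e i)

/-- Existence of coded generic sequences of finite length. -/
theorem exists_finite_generic (hM : M ⊨ starTheory S₀ S₁ a b) [Nonempty M] (U : Ultrafilter M)
    {ι : Type} (F : Finset ι) (l : ι → ℕ) (P : ∀ c : ι, (Fin (l c) → M) → M → Prop) (K : ℕ) :
    ∃ e : M, len T.lang L₁ m n e = cst T.lang L₁ m n K ∧
      ∀ c ∈ F, Cnd T.lang L₁ m n U (P c) e := by
  obtain ⟨g, hg⟩ := exists_generic U F l P
  obtain ⟨e, he1, he2⟩ := exists_code hM K fun t => g t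
  refine ⟨e, he1, fun c hc i hi f hf h => ?_⟩
  rw [he1] at hi
  obtain ⟨i', rfl⟩ := lt_cst hM K i hi
  choose f' hf' using fun t => lt_cst hM i' (f t) (hf t)
  have h1 : ∀ t, ev T.lang L₁ m n e (f t) = g (f' t) := by
    intro t
    rw [hf' t]
    exact he2 ⟨f' t, (f' t).2.trans i'.2⟩
  simp only [h1] at h ⊢
  rw [he2 i']
  exact hg i' c hc (fun t => f' t) (fun t => (f' t).2) h

/-- The genericity conditions are definable over a finite set. -/
theorem cnd_definable (hT : T.Stable)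
    [T.lang.Structure M] [Nonempty M] [(hom₀ T.lang L₁ m n).IsExpansionOn M]
    (hTM : M ⊨ T.theory) (U : Ultrafilter M) (r : ℕ) (ψ : T.lang.Formula (Fin r ⊕ Unit))
    (l j : ℕ) : ∃ A : Set M, A.Countable ∧ A.Definable (starLang T.lang L₁ m n)
      {v : Unit → M | Cnd T.lang L₁ m n U (Psi
        (fun b : Fin r → M => ∀ᶠ x in (U : Filter M), ψ.Realize (Sum.elim b fun _ => x))
        (fun b x => ψ.Realize (Sum.elim b fun _ => x)) l j) (v ())} := by
  obtain ⟨k, c, W, hW⟩ := type_definable hT hTM U ψ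
  obtain ⟨Ψ, hΨ⟩ := exists_psi_formula ψ W l j
  obtain ⟨k', c', W', hW'⟩ := type_definable hT hTM U Ψ
  have h1 : ∀ (y : Fin l → M) (x : M), Psi
      (fun b : Fin r → M => ∀ᶠ x in (U : Filter M), ψ.Realize (Sum.elim b fun _ => x))
      (fun b x => ψ.Realize (Sum.elim b fun _ => x)) l j y x ↔
      Ψ.Realize (Sum.elim (Sum.elim c y) fun _ => x) := by
    intro y x
    rw [hΨ]
    simp only [hW]
  let Λ := starLang T.lang L₁ m n
  let Ψ' : Λ.Formula ((Fin k ⊕ Fin l) ⊕ Unit) := (hom₀ T.lang L₁ m n).onFormula Ψ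
  have h3 : UDef Λ (α := (Fin k ⊕ Fin k') ⊕ Unit) fun M _ v =>
      ∀ i : M, lt T.lang L₁ m n i (len T.lang L₁ m n (v (Sum.inr ()))) → ∀ f : Fin l → M,
        (∀ t, lt T.lang L₁ m n (f t) i) →
        ({s : Fin k' | Ψ'.Realize (Sum.elim (Sum.elim (fun u => v (Sum.inl (Sum.inl u)))
          fun t => ev T.lang L₁ m n (v (Sum.inr ())) (f t))
          fun _ => v (Sum.inl (Sum.inr s)))} ∈ W') →
        Ψ'.Realize (Sum.elim (Sum.elim (fun u => v (Sum.inl (Sum.inl u)))
          fun t => ev T.lang L₁ m n (v (Sum.inr ())) (f t))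
          fun _ => ev T.lang L₁ m n (v (Sum.inr ())) i) := by
    refine UDef.fa (UDef.imp (udef_lt (UFun.var _) (ufun_len (UFun.var _))) (UDef.alls
      (UDef.imp (UDef.all fun t => udef_lt (UFun.var _) (UFun.var _)) (UDef.imp
        (UDef.mem (fun s => UDef.formSum Ψ' ?_ fun _ => UFun.var _) W')
        (UDef.formSum Ψ' ?_ fun _ => ufun_ev (UFun.var _) (UFun.var _))))))
    · rintro (u | t)
      · exact UFun.var _
      · exact ufun_ev (UFun.var _) (UFun.var _)
    · rintro (u | t)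
      · exact UFun.var _
      · exact ufun_ev (UFun.var _) (UFun.var _)
  refine ⟨Set.range c ∪ Set.range c', (Set.countable_range _).union (Set.countable_range _), ?_⟩
  have h4 := UDef.definable (L := Λ) (α := Fin k ⊕ Fin k') (ι := Unit)
    (P := fun M _ w v => ∀ i : M, lt T.lang L₁ m n i (len T.lang L₁ m n (v ())) →
      ∀ f : Fin l → M, (∀ t, lt T.lang L₁ m n (f t) i) →
        ({s : Fin k' | Ψ'.Realize (Sum.elim (Sum.elim (fun u => w (Sum.inl u))
          fun t => ev T.lang L₁ m n (v ()) (f t))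
          fun _ => w (Sum.inr s))} ∈ W') →
        Ψ'.Realize (Sum.elim (Sum.elim (fun u => w (Sum.inl u))
          fun t => ev T.lang L₁ m n (v ()) (f t))
          fun _ => ev T.lang L₁ m n (v ()) i)) h3 M (A := Set.range c ∪ Set.range c')
    (Sum.elim c c') (by
      rintro (i | i)
      · exact Or.inl ⟨i, rfl⟩
      · exact Or.inr ⟨i, rfl⟩)
  convert h4 using 1
  ext v
  simp only [mem_ofPred_eq, Cnd, h1, hW', Ψ', LHom.realize_onFormula, Sum.elim_inl, Sum.elim_inr]

/-- The order of an initial segment. -/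
noncomputable abbrev segOrder (hM : M ⊨ starTheory S₀ S₁ a b) (N : M) :
    LinearOrder {x : M // lt T.lang L₁ m n x N} := by
  classical
  exact @linearOrderOfSTO _ (fun x y => lt T.lang L₁ m n x.1 y.1)
    { irrefl := fun x => lt_irrefl' hM x.1
      trans := fun x y z => lt_trans' hM x.1 y.1 z.1
      trichotomous := fun x y h h' => by
        rcases lt_total' hM x.1 y.1 with h1 | h1 | h1
        · exact absurd h1 h
        · exact Subtype.ext h1
        · exact absurd h1 h' } (Classical.decRel _)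

/-- The first reduct is saturated. -/
theorem claimB (hM : M ⊨ starTheory S₀ S₁ a b) (hT : T.Stable)
    [T.lang.Structure M] [Nonempty M] [(hom₀ T.lang L₁ m n).IsExpansionOn M]
    (hTM : M ⊨ T.theory) (hsat : IsSaturated (starLang T.lang L₁ m n) M (aleph 1))
    {κ : Cardinal.{0}} (hκ : ℵ₀ < κ)
    (hbig : ∀ N : M, (∀ k, lt T.lang L₁ m n (cst T.lang L₁ m n k) N) →
      κ ≤ #{x : M // lt T.lang L₁ m n x N}) : IsSaturated T.lang M κ := by
  classical
  intro A hA p hp
  -- the ultrafilter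
  obtain ⟨U, hU⟩ := Ultrafilter.exists_ultrafilter_of_finite_inter_nonempty
    ((fun φ : T.lang.Formula (A ⊕ Unit) =>
      {x : M | φ.Realize (Sum.elim (fun a : A => (a : M)) fun _ => x)}) '' p) (by
      intro 𝒯 h𝒯
      choose g hg1 hg2 using fun s (hs : s ∈ 𝒯) => h𝒯 hs
      obtain ⟨x, hx⟩ := hp (𝒯.attach.image fun s : {s // s ∈ 𝒯} => g s.1 s.2) (by
        intro φ hφ
        obtain ⟨s, -, rfl⟩ := Finset.mem_image.1 hφ
        exact hg1 _ _)
      refine ⟨x, fun s hs => ?_⟩
      rw [← hg2 s hs]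
      exact hx _ (Finset.mem_image.2 ⟨⟨s, hs⟩, Finset.mem_attach _ _, rfl⟩))
  -- the conditions
  let J : Type := (Σ r : ℕ, T.lang.Formula (Fin r ⊕ Unit)) × ℕ × ℕ
  let P : ∀ c : J, (Fin c.2.1 → M) → M → Prop := fun c => Psi
    (fun b : Fin c.1.1 → M => ∀ᶠ x in (U : Filter M), c.1.2.Realize (Sum.elim b fun _ => x))
    (fun b x => c.1.2.Realize (Sum.elim b fun _ => x)) c.2.1 c.2.2
  have hdef : ∀ c : J, ∃ A : Set M, A.Countable ∧ A.Definable (starLang T.lang L₁ m n)
      {v : Unit → M | Cnd T.lang L₁ m n U (P c) (v ())} := fun c =>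
    cnd_definable hT hTM U c.1.1 c.1.2 c.2.1 c.2.2
  choose B hB hBdef using hdef
  have hJ : Countable J := by
    have h1 : ∀ r, Countable (T.lang.Formula (Fin r ⊕ Unit)) := by
      intro r
      rw [← Cardinal.mk_le_aleph0_iff]
      have h2 : #(T.lang.Formula (Fin r ⊕ Unit)) < aleph 1 :=
        card_formula_lt T.countable_functions T.countable_relations
          (by rw [← Cardinal.aleph_zero]; exact Cardinal.aleph_lt_aleph.2 zero_lt_one)
          ((Cardinal.mk_lt_aleph0).trans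
            (by rw [← Cardinal.aleph_zero]; exact Cardinal.aleph_lt_aleph.2 zero_lt_one))
      rwa [← Cardinal.succ_aleph0, Order.lt_succ_iff] at h2
    infer_instance
  have hBc : (⋃ c, B c).Countable := Set.countable_iUnion hB
  obtain ⟨e, he⟩ := sat_one hsat (A := ⋃ c, B c) (by
      rw [← Cardinal.succ_aleph0, Order.lt_succ_iff]
      exact hBc.le_aleph0) (ι := J ⊕ ℕ)
    (fun i e => Sum.elim (fun c => Cnd T.lang L₁ m n U (P c) e)
      (fun k => lt T.lang L₁ m n (cst T.lang L₁ m n k) (len T.lang L₁ m n e)) i) (by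
      rintro (c | k)
      · exact (hBdef c).mono (Set.subset_iUnion B c)
      · exact UDef.definable (L := starLang T.lang L₁ m n) (α := Empty) (ι := Unit)
          (P := fun M _ _ v => lt T.lang L₁ m n (cst T.lang L₁ m n k) (len T.lang L₁ m n (v ())))
          (udef_lt (ufun_cst _) (ufun_len (UFun.var _))) M Empty.elim fun a => a.elim) (by
      intro F
      obtain ⟨e, he1, he2⟩ := exists_finite_generic hM U F.toLeft (fun c => c.2.1) P
        (F.toRight.sup id + 1)
      refine ⟨e, ?_⟩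
      rintro (c | k) hi
      · exact he2 c (Finset.mem_toLeft.2 hi)
      · show lt T.lang L₁ m n (cst T.lang L₁ m n k) (len T.lang L₁ m n e)
        rw [he1]
        exact cst_lt hM (Nat.lt_succ_of_le (Finset.le_sup (f := id) (Finset.mem_toRight.2 hi))))
  -- the sequence
  let N : M := len T.lang L₁ m n e
  have hN : ∀ k, lt T.lang L₁ m n (cst T.lang L₁ m n k) N := fun k => he (Sum.inr k)
  let E : {x : M // lt T.lang L₁ m n x N} → M := fun i => ev T.lang L₁ m n e i.1
  have hfin : ∀ φ ∈ p, {i | ¬ φ.Realize (Sum.elim (fun a : A => (a : M)) fun _ => E i)}.Finite := by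
    intro φ hφ
    obtain ⟨r, ψ, b', hb'⟩ := exists_fin_form φ fun a : A => (a : M)
    simp only [hb']
    let := segOrder hM N
    refine finite_exceptions hT hTM U ψ E (fun l j f i hf h => ?_) b' ?_
    · have h1 : Cnd T.lang L₁ m n U (P (⟨r, ψ⟩, l, j)) e := he (Sum.inl (⟨r, ψ⟩, l, j))
      exact h1 i.1 i.2 (fun t => (f t).1) (fun t => hf t) h
    · have h1 : {x : M | φ.Realize (Sum.elim (fun a : A => (a : M)) fun _ => x)} ∈ U :=
        hU ⟨φ, hφ, rfl⟩
      filter_upwards [h1] with x hx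
      exact (hb' x).1 hx
  by_contra hcon
  push Not at hcon
  have hch : ∀ i, ∃ φ, φ ∈ p ∧ ¬ φ.Realize (Sum.elim (fun a : A => (a : M)) fun _ => E i) :=
    fun i => hcon (E i)
  choose g hgp hg using hch
  choose code hcode using fun φ : p => (hfin φ.1 φ.2).countable.to_subtype.exists_injective_nat
  have hle : #{x : M // lt T.lang L₁ m n x N} ≤ #(p × ℕ) := by
    refine Cardinal.mk_le_of_injective (f := fun i => (⟨g i, hgp i⟩, code ⟨g i, hgp i⟩ ⟨i, hg i⟩))
      fun i j hij => ?_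
    have h1 : g i = g j := congrArg (fun q => (q.1 : T.lang.Formula (A ⊕ Unit))) hij
    have h2 : code ⟨g i, hgp i⟩ ⟨i, hg i⟩ = code ⟨g j, hgp j⟩ ⟨j, hg j⟩ :=
      congrArg Prod.snd hij
    have h3 : ∀ (φ ψ : T.lang.Formula (A ⊕ Unit)) (hφ : φ ∈ p) (hψ : ψ ∈ p)
        (h4 : ¬ φ.Realize (Sum.elim (fun a : A => (a : M)) fun _ => E i))
        (h5 : ¬ ψ.Realize (Sum.elim (fun a : A => (a : M)) fun _ => E j)), φ = ψ →
        code ⟨φ, hφ⟩ ⟨i, h4⟩ = code ⟨ψ, hψ⟩ ⟨j, h5⟩ → i = j := by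
      intro φ ψ hφ hψ h4 h5 h6 h7
      subst h6
      exact congrArg Subtype.val (hcode ⟨φ, hφ⟩ h7)
    exact h3 _ _ _ _ _ _ h1 h2
  have hlt : #(p × ℕ) < κ := by
    rw [Cardinal.mk_prod, Cardinal.lift_id, Cardinal.lift_id]
    refine Cardinal.mul_lt_of_lt hκ.le ?_ (by simpa using hκ)
    refine (Cardinal.mk_set_le p).trans_lt (card_formula_lt T.countable_functions
      T.countable_relations hκ ?_)
    rw [Cardinal.mk_sum, Cardinal.lift_id, Cardinal.lift_id]
    exact Cardinal.add_lt_of_lt hκ.le hA ((Cardinal.mk_lt_aleph0).trans hκ)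
  exact absurd (hbig N hN) (not_le.2 (hle.trans_lt hlt))

end claim

end Pool.Agent.Lib.MP_491b55_lc.Pos
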