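import Pool.Agent.Lib.MP_491b55_lc.Defs
import Pool.Agent.Lib.MP_491b55_lc.Pos.UDef

/-!
# Countable models on the natural numbers, and saturation along isomorphisms
-/

set_option autoImplicit false

open FirstOrder FirstOrder.Language Set Cardinal

namespace Pool.Agent.Lib.MP_491b55_lc.Pos

theorem card_le_aleph0 {L : FirstOrder.Language.{0, 0}} (hf : Countable (Σ n, L.Functions n))
    (hr : Countable (Σ n, L.Relations n)) : L.card ≤ ℵ₀ := by
  have : Countable L.Symbols := inferInstanceAs (Countable ((Σ n, L.Functions n) ⊕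
    (Σ n, L.Relations n)))
  exact Cardinal.mk_le_aleph0

/-- Countable elementary submodels, on the natural numbers. -/
theorem exists_nat_model {L : FirstOrder.Language.{0, 0}} (hf : Countable (Σ n, L.Functions n))
    (hr : Countable (Σ n, L.Relations n)) (M : Type) [L.Structure M] [Infinite M] (s : Set M)
    (hs : s.Countable) : ∃ (S : L.Structure ℕ) (f : ℕ → M), (∀ x ∈ s, x ∈ Set.range f) ∧
      ∀ (α : Type) (φ : L.Formula α) (v : α → ℕ), @Formula.Realize L ℕ S α φ v ↔
        φ.Realize (f ∘ v) := by
  obtain ⟨S', hS', hcard⟩ := exists_elementarySubstructure_card_eq.{0, 0, 0, 0} L s ℵ₀ le_rfl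
    (by simpa using hs.le_aleph0) (by simpa using card_le_aleph0 hf hr) (by simp)
  have hcard' : #S' = #ℕ := by simpa using hcard
  obtain ⟨e⟩ := Cardinal.eq.1 hcard'
  let S : L.Structure ℕ := e.inducedStructure
  refine ⟨S, fun k => (e.symm k : M), fun x hx => ⟨e ⟨x, hS' hx⟩, by simp⟩, fun α φ v => ?_⟩
  have h1 : @Formula.Realize L ℕ S α φ (e ∘ (e.symm ∘ v)) ↔ φ.Realize (e.symm ∘ v) :=
    StrongHomClass.realize_formula (L := L) (e.inducedStructureEquiv (L := L)) φ
  have h2 : e ∘ (e.symm ∘ v) = v := by
    funext i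
    simp
  rw [h2] at h1
  rw [h1]
  exact (S'.subtype.map_formula φ (e.symm ∘ v)).symm

/-- Saturation is invariant under isomorphisms. -/
theorem isSaturated_of_equiv {L : FirstOrder.Language.{0, 0}} {M N : Type} [L.Structure M]
    [L.Structure N] (e : M ≃[L] N) {κ : Cardinal.{0}} (h : IsSaturated L M κ) :
    IsSaturated L N κ := by
  classical
  intro A hA p hp
  let A' : Set M := {x | e x ∈ A}
  let i : A ≃ A' :=
    { toFun := fun a => ⟨e.symm a.1, by simp [A']⟩
      invFun := fun a => ⟨e a.1, a.2⟩
      left_inv := fun a => by simp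
      right_inv := fun a => by simp }
  have hA' : #A' < κ := by rwa [← Cardinal.mk_congr i]
  have key : ∀ (φ : L.Formula (A ⊕ Unit)) (x : M),
      (φ.relabel (Sum.map i id)).Realize (Sum.elim (fun a : A' => (a : M)) fun _ => x) ↔
        φ.Realize (Sum.elim (fun a : A => (a : N)) fun _ => e x) := by
    intro φ x
    rw [Formula.realize_relabel, ← StrongHomClass.realize_formula e φ]
    have : e ∘ ((Sum.elim (fun a : A' => (a : M)) fun _ : Unit => x) ∘ Sum.map i id) =
        Sum.elim (fun a : A => (a : N)) fun _ => e x := by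
      funext k
      rcases k with k | k <;> simp [i]
    rw [this]
  obtain ⟨x, hx⟩ := h A' hA' ((fun φ : L.Formula (A ⊕ Unit) => φ.relabel (Sum.map i id)) '' p)
    (by
      intro q hq
      choose g hg1 hg2 using hq
      obtain ⟨y, hy⟩ := hp (q.attach.image fun ψ : {ψ // ψ ∈ q} => g ψ.1 ψ.2) (by
        intro φ hφ
        obtain ⟨ψ, -, rfl⟩ := Finset.mem_image.1 hφ
        exact hg1 _ _)
      refine ⟨e.symm y, fun ψ hψ => ?_⟩
      rw [← hg2 ψ hψ, key]
      have : e (e.symm y) = y := by simp
      rw [this]
      exact hy _ (Finset.mem_image.2 ⟨⟨ψ, hψ⟩, Finset.mem_attach _ _, rfl⟩))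
  exact ⟨e x, fun φ hφ => (key φ x).1 (hx _ ⟨φ, hφ, rfl⟩)⟩

/-- Finite structures are saturated. -/
theorem isSaturated_of_finite {L : FirstOrder.Language.{0, 0}} {M : Type} [L.Structure M]
    [Finite M] (κ : Cardinal.{0}) : IsSaturated L M κ := by
  classical
  intro A _ p hp
  by_contra hcon
  push Not at hcon
  choose g hgp hg using hcon
  have := Fintype.ofFinite M
  obtain ⟨x, hx⟩ := hp (Finset.univ.image g) (by
    intro φ hφ
    obtain ⟨y, -, rfl⟩ := Finset.mem_image.1 hφ
    exact hgp y)
  exact hg x (hx _ (Finset.mem_image_of_mem g (Finset.mem_univ x)))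

/-! ### The interpretation given by a homomorphism of languages -/

/-- The interpretation given by a homomorphism of languages. -/
def homTuple {L₀ L : FirstOrder.Language.{0, 0}} (h : L₀ →ᴸ L) : FTuple L₀ L where
  eq := (Term.var 0).equal (Term.var 1)
  rel := fun R => (h.onRelation R).formula fun i => Term.var i
  fn := fun f => (Term.func (h.onFunction f) fun i => Term.var i.castSucc).equal
    (Term.var (Fin.last _))

section homTuple

variable {L₀ L : FirstOrder.Language.{0, 0}} (h : L₀ →ᴸ L) (M : Type) [L.Structure M]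

/-- The domain is everything. -/
def domEquiv : M ≃ (homTuple h).Dom M where
  toFun := fun x => ⟨x, by
    show (homTuple h).eq.Realize ![x, x]
    simp [homTuple]⟩
  invFun := fun x => x.1
  left_inv := fun _ => rfl
  right_inv := fun _ => rfl

variable {M}

theorem rel_realize [L₀.Structure M] [h.IsExpansionOn M] {k : ℕ} (R : L₀.Relations k)
    (x : Fin k → M) : ((homTuple h).rel R).Realize x ↔ Structure.RelMap R x := by
  simp only [homTuple, Formula.realize_rel, Term.realize_var]
  exact iff_of_eq (LHom.map_onRelation h R x)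

theorem fn_realize [L₀.Structure M] [h.IsExpansionOn M] {k : ℕ} (f : L₀.Functions k)
    (x : Fin k → M) (y : M) : ((homTuple h).fn f).Realize (Fin.snoc x y : Fin (k + 1) → M) ↔
      Structure.funMap f x = y := by
  simp only [homTuple, Formula.realize_equal, Term.realize_func, Term.realize_var, Fin.snoc_castSucc,
    Fin.snoc_last]
  rw [LHom.map_onFunction h f x]

/-- If `S` is the structure defined by the interpretation then the identity is an
isomorphism. -/
def equivOfIsStr [L₀.Structure M] [h.IsExpansionOn M] (S : L₀.Structure ((homTuple h).Dom M))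
    (hS : (homTuple h).IsStr M S) : @Language.Equiv L₀ M ((homTuple h).Dom M) _ S := by
  letI := S
  exact
    { domEquiv h M with
      map_fun' := fun {k} f x => by
        show domEquiv h M (Structure.funMap f x) = Structure.funMap f (domEquiv h M ∘ x)
        symm
        rw [hS.2]
        exact (fn_realize h f x _).2 rfl
      map_rel' := fun {k} R x => by
        show Structure.RelMap R (domEquiv h M ∘ x) ↔ Structure.RelMap R x
        rw [hS.1]
        exact rel_realize h R x }

theorem interprets_of [Nonempty M] [L₀.Structure M] [h.IsExpansionOn M] {T₀ : L₀.Theory}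
    (hT : M ⊨ T₀) : ∃ S : L₀.Structure ((homTuple h).Dom M), (homTuple h).IsStr M S ∧
      Nonempty ((homTuple h).Dom M) ∧ @Theory.Model L₀ ((homTuple h).Dom M) S T₀ := by
  let S : L₀.Structure ((homTuple h).Dom M) := (domEquiv h M).inducedStructure
  refine ⟨S, ⟨fun k R x => ?_, fun k f x y => ?_⟩, ⟨domEquiv h M (Classical.arbitrary M)⟩, ?_⟩
  · exact (rel_realize h R fun i => (x i).1).symm
  · refine Iff.trans ?_ (fn_realize h f (fun i => (x i).1) y.1).symm
    exact ⟨fun h' => by rw [← h']; rfl, fun h' => Subtype.ext h'⟩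
  · have := @StrongHomClass.theory_model L₀ M ((homTuple h).Dom M) _ S
    exact this (domEquiv h M).inducedStructureEquiv

end homTuple

end Pool.Agent.Lib.MP_491b55_lc.Pos
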