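import Pool.Agent.Lib.MP_491b55_lc.Pos.ClaimB
import Pool.Agent.Lib.MP_491b55_lc.Pos.Models

/-!
# Every stable theory is below every unstable theory
-/

set_option autoImplicit false

open FirstOrder FirstOrder.Language Set Cardinal

namespace Pool.Agent.Lib.MP_491b55_lc.Pos

theorem countable_fiber {F : ℕ → Type} (h : Countable (Σ n, F n)) (n : ℕ) : Countable (F n) :=
  Function.Injective.countable (f := fun x : F n => (⟨n, x⟩ : Σ n, F n)) fun x y hxy => by
    simpa using hxy

/-! ### The case of a stable theory with infinite models -/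

/-- The complete theory of the standard structure. -/
noncomputable def starCT (T₀ T₁ : CTheory) {m n : ℕ} (S₀ : T₀.lang.Structure ℕ)
    (S₁ : T₁.lang.Structure ℕ) (a : ℕ → Fin m → ℕ) (b : ℕ → Fin n → ℕ) : CTheory where
  lang := starLang T₀.lang T₁.lang m n
  countable_functions := by
    have h1 := countable_fiber T₀.countable_functions
    have h2 := countable_fiber T₁.countable_functions
    have h3 : ∀ k, Countable (AuxFn m n k) := by
      intro k
      let f : AuxFn m n k → ℕ × ℕ := fun x => match x with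
        | .c k => (0, k)
        | .len => (1, 0)
        | .A r => (2, r)
        | .B r => (3, r)
        | .ev => (4, 0)
      refine Function.Injective.countable (f := f) fun x y hxy => ?_
      cases x <;> cases y <;> simp_all [f, Fin.ext_iff]
    have h4 : ∀ k, Countable ((starLang T₀.lang T₁.lang m n).Functions k) := fun k =>
      inferInstanceAs (Countable ((T₀.lang.Functions k ⊕ T₁.lang.Functions k) ⊕ AuxFn m n k))
    infer_instance
  countable_relations := by
    have h1 := countable_fiber T₀.countable_relations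
    have h2 := countable_fiber T₁.countable_relations
    have h3 : ∀ k, Countable (AuxRel k) := by
      intro k
      refine Function.Injective.countable (f := fun _ => 0) fun x y _ => ?_
      cases x
      cases y
      rfl
    have h4 : ∀ k, Countable ((starLang T₀.lang T₁.lang m n).Relations k) := fun k =>
      inferInstanceAs (Countable ((T₀.lang.Relations k ⊕ T₁.lang.Relations k) ⊕ AuxRel k))
    infer_instance
  theory := starTheory S₀ S₁ a b
  complete := by
    let := stdStr S₀ S₁ a b
    exact completeTheory.isComplete (starLang T₀.lang T₁.lang m n) ℕ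

theorem infinite_case {T₀ T₁ : CTheory} (hT₀ : T₀.Stable) {m n : ℕ} (S₀ : T₀.lang.Structure ℕ)
    (hS₀ : @Theory.Model T₀.lang ℕ S₀ T₀.theory) (S₁ : T₁.lang.Structure ℕ)
    (hS₁ : @Theory.Model T₁.lang ℕ S₁ T₁.theory) (a : ℕ → Fin m → ℕ) (b : ℕ → Fin n → ℕ)
    (φ : T₁.lang.Formula (Fin m ⊕ Fin n))
    (hφ : ∀ i j, @Formula.Realize T₁.lang ℕ S₁ _ φ (Sum.elim (a i) (b j)) ↔ i < j) :
    InterpLE (aleph 1) T₀ T₁ := by
  refine ⟨aleph 1, fun κ hκ _ => ⟨starCT T₀ T₁ S₀ S₁ a b, homTuple (hom₀ T₀.lang T₁.lang m n),
    homTuple (hom₁ T₀.lang T₁.lang m n), ?_, ?_, ?_⟩⟩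
  · intro M iM _ hM
    let : (starLang T₀.lang T₁.lang m n).Structure M := iM
    let : T₀.lang.Structure M := (hom₀ T₀.lang T₁.lang m n).reduct M
    have : (hom₀ T₀.lang T₁.lang m n).IsExpansionOn M := LHom.isExpansionOn_reduct _ M
    exact interprets_of (L := starLang T₀.lang T₁.lang m n) (hom₀ T₀.lang T₁.lang m n)
      (model₀ (L₁ := T₁.lang) (m := m) (n := n) hM hS₀)
  · intro M iM _ hM
    let : (starLang T₀.lang T₁.lang m n).Structure M := iM
    let : T₁.lang.Structure M := (hom₁ T₀.lang T₁.lang m n).reduct M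
    have : (hom₁ T₀.lang T₁.lang m n).IsExpansionOn M := LHom.isExpansionOn_reduct _ M
    exact interprets_of (L := starLang T₀.lang T₁.lang m n) (hom₁ T₀.lang T₁.lang m n)
      (model₁ (L₀ := T₀.lang) (m := m) (n := n) hM hS₁)
  · intro M iM _ hM hsat S₀' S₁' hS₀' hS₁' hsat₁
    let : (starLang T₀.lang T₁.lang m n).Structure M := iM
    let : T₀.lang.Structure M := (hom₀ T₀.lang T₁.lang m n).reduct M
    have : (hom₀ T₀.lang T₁.lang m n).IsExpansionOn M := LHom.isExpansionOn_reduct _ M
    let : T₁.lang.Structure M := (hom₁ T₀.lang T₁.lang m n).reduct M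
    have : (hom₁ T₀.lang T₁.lang m n).IsExpansionOn M := LHom.isExpansionOn_reduct _ M
    have hκ' : ℵ₀ < κ := by
      refine lt_of_lt_of_le ?_ hκ
      rw [← Cardinal.aleph_zero]
      exact Cardinal.aleph_lt_aleph.2 zero_lt_one
    have hsat' : IsSaturated (starLang T₀.lang T₁.lang m n) M (aleph 1) := by
      rcases hsat with h | h
      · exfalso
        have h1 : ℵ₀ < aleph 1 := by
          rw [← Cardinal.aleph_zero]
          exact Cardinal.aleph_lt_aleph.2 zero_lt_one
        rw [h] at h1
        exact absurd h1 (not_lt.2 Cardinal.one_le_aleph0)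
      · exact h
    have h1 : IsSaturated T₁.lang M κ :=
      @isSaturated_of_equiv T₁.lang _ M S₁' _
        (@Language.Equiv.symm T₁.lang M _ _ S₁' (equivOfIsStr (L := starLang T₀.lang T₁.lang m n)
          (hom₁ T₀.lang T₁.lang m n) S₁' hS₁')) κ hsat₁
    have h2 : IsSaturated T₀.lang M κ :=
      claimB (T := T₀) (L₁ := T₁.lang) (m := m) (n := n) hM hT₀
        (model₀ (L₁ := T₁.lang) (m := m) (n := n) hM hS₀) hsat' hκ'
        fun N hN => claimA (L₀ := T₀.lang) (m := m) (n := n) hM φ hφ hκ'.le h1 hN
    exact @isSaturated_of_equiv T₀.lang M _ _ S₀' (equivOfIsStr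
      (L := starLang T₀.lang T₁.lang m n) (hom₀ T₀.lang T₁.lang m n) S₀' hS₀') κ h2

/-! ### The case of a stable theory with a finite model -/

/-- Constant symbols. -/
inductive CFn (C : Type) : ℕ → Type
  | mk (x : C) : CFn C 0

/-- The language of the constants. -/
def cL (C : Type) : FirstOrder.Language.{0, 0} := ⟨CFn C, fun _ => Empty⟩

/-- The structure given by the values of the constants. -/
@[reducible] def cStr {C : Type} (g : C → ℕ) : (cL C).Structure ℕ where
  funMap := fun {k} (f : CFn C k) => match k, f with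
    | _, .mk x => fun _ => g x
  RelMap := fun {_} (r : Empty) => r.elim

section finite

variable (L : FirstOrder.Language.{0, 0}) (C : Type)

variable {C}

/-- The value of a constant. -/
def dc (x : C) {M : Type} [(L.sum (cL C)).Structure M] : M :=
  Structure.funMap (L := L.sum (cL C)) (Sum.inr (CFn.mk x)) ![]

variable {L}

theorem ufun_dc {α : Type} (x : C) : UFun (L.sum (cL C)) (α := α) fun M _ _ => (dc L x : M) :=
  UFun.fn0 _

variable [Finite C] {L₀ : FirstOrder.Language.{0, 0}} [L₀.Structure C]

theorem udef_eq : UDef (L.sum (cL C)) (α := Fin 2) fun M _ v =>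
    ∃ x : C, v 0 = (dc L x : M) ∧ v 1 = dc L x :=
  UDef.any fun _ => UDef.and (UDef.eq (UFun.var _) (ufun_dc _)) (UDef.eq (UFun.var _) (ufun_dc _))

theorem udef_rel {k : ℕ} (R : L₀.Relations k) : UDef (L.sum (cL C)) (α := Fin k) fun M _ v =>
    ∃ y : Fin k → C, Structure.RelMap R y ∧ ∀ i, v i = (dc L (y i) : M) :=
  UDef.any fun _ => UDef.and (UDef.const _) (UDef.all fun _ => UDef.eq (UFun.var _) (ufun_dc _))

theorem udef_fn {k : ℕ} (f : L₀.Functions k) :
    UDef (L.sum (cL C)) (α := Fin (k + 1)) fun M _ v => ∃ y : Fin k → C,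
      (∀ i : Fin k, v i.castSucc = (dc L (y i) : M)) ∧
        v (Fin.last k) = dc L (Structure.funMap f y) :=
  UDef.any fun _ => UDef.and (UDef.all fun _ => UDef.eq (UFun.var _) (ufun_dc _))
    (UDef.eq (UFun.var _) (ufun_dc _))

variable (L L₀ C)

/-- The interpretation of a finite structure by constants. -/
noncomputable def finTuple : FTuple L₀ (L.sum (cL C)) where
  eq := (udef_eq (L := L) (C := C)).choose
  rel := fun R => (udef_rel (L := L) (C := C) R).choose
  fn := fun f => (udef_fn (L := L) (C := C) f).choose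

variable {L L₀ C} {M : Type} [(L.sum (cL C)).Structure M]

/-- The domain is the set of the values of the constants. -/
theorem mem_dom (x : M) : (finTuple L C L₀).eq.Realize ![x, x] ↔ ∃ c : C, x = dc L c := by
  rw [show (finTuple L C L₀).eq = (udef_eq (L := L) (C := C)).choose from rfl,
    (udef_eq (L := L) (C := C)).choose_spec]
  simp

/-- The bijection between the finite structure and the domain. -/
noncomputable def finEquiv (hinj : ∀ x y : C, x ≠ y → (dc L x : M) ≠ dc L y) :
    C ≃ (finTuple L C L₀).Dom M :=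
  Equiv.ofBijective (fun c => ⟨dc L c, (mem_dom _).2 ⟨c, rfl⟩⟩) ⟨fun x y hxy => by
    by_contra hne
    exact hinj x y hne (congrArg Subtype.val hxy), fun x => by
    obtain ⟨c, hc⟩ := (mem_dom (L₀ := L₀) x.1).1 x.2
    exact ⟨c, Subtype.ext hc.symm⟩⟩

theorem finEquiv_val (hinj : ∀ x y : C, x ≠ y → (dc L x : M) ≠ dc L y) (c : C) :
    (finEquiv (L₀ := L₀) hinj c).1 = dc L c := rfl

theorem fin_interprets [Nonempty C] (hinj : ∀ x y : C, x ≠ y → (dc L x : M) ≠ dc L y)
    {T₀ : L₀.Theory} (hT : C ⊨ T₀) : ∃ S : L₀.Structure ((finTuple L C L₀).Dom M),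
      (finTuple L C L₀).IsStr M S ∧ Nonempty ((finTuple L C L₀).Dom M) ∧
        @Theory.Model L₀ ((finTuple L C L₀).Dom M) S T₀ := by
  let e := finEquiv (L₀ := L₀) hinj
  let S : L₀.Structure ((finTuple L C L₀).Dom M) := e.inducedStructure
  refine ⟨S, ⟨fun k R x => ?_, fun k f x y => ?_⟩, ⟨e (Classical.arbitrary C)⟩, ?_⟩
  · rw [show (finTuple L C L₀).rel R = (udef_rel (L := L) (C := C) R).choose from rfl,
      (udef_rel (L := L) (C := C) R).choose_spec]
    show Structure.RelMap R (e.symm ∘ x) ↔ _
    constructor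
    · intro h
      refine ⟨_, h, fun i => ?_⟩
      have := finEquiv_val (L₀ := L₀) hinj (e.symm (x i))
      rw [← Function.comp_apply (f := e.symm) (g := x)] at this
      rw [← this]
      show (x i).1 = (e (e.symm (x i))).1
      rw [e.apply_symm_apply]
    · rintro ⟨y, hy, hxy⟩
      have : e.symm ∘ x = y := by
        funext i
        rw [Function.comp_apply, Equiv.symm_apply_eq]
        exact Subtype.ext (hxy i)
      rw [this]
      exact hy
  · rw [show (finTuple L C L₀).fn f = (udef_fn (L := L) (C := C) f).choose from rfl,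
      (udef_fn (L := L) (C := C) f).choose_spec]
    show e (Structure.funMap f (e.symm ∘ x)) = y ↔ _
    simp only [Fin.snoc_castSucc, Fin.snoc_last]
    constructor
    · intro h
      refine ⟨e.symm ∘ x, fun i => ?_, ?_⟩
      · show (x i).1 = (e (e.symm (x i))).1
        rw [e.apply_symm_apply]
      · rw [← h]
        rfl
    · rintro ⟨y', hy', hy⟩
      have : e.symm ∘ x = y' := by
        funext i
        rw [Function.comp_apply, Equiv.symm_apply_eq]
        exact Subtype.ext (hy' i)
      rw [this]
      exact Subtype.ext hy.symm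
  · have := @StrongHomClass.theory_model L₀ C ((finTuple L C L₀).Dom M) _ S
    exact this e.inducedStructureEquiv

end finite

/-- The complete theory of the standard structure in the finite case. -/
noncomputable def finCT (T₁ : CTheory) (C : Type) [Finite C] (S₁ : T₁.lang.Structure ℕ)
    (g : C → ℕ) : CTheory where
  lang := T₁.lang.sum (cL C)
  countable_functions := by
    have h2 := countable_fiber T₁.countable_functions
    have h3 : ∀ k, Countable (CFn C k) := by
      intro k
      refine Function.Injective.countable (f := fun x : CFn C k => match x with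
        | .mk x => x) fun x y hxy => ?_
      cases x
      cases y
      simp_all
    have h4 : ∀ k, Countable ((T₁.lang.sum (cL C)).Functions k) := fun k =>
      inferInstanceAs (Countable (T₁.lang.Functions k ⊕ CFn C k))
    infer_instance
  countable_relations := by
    have h2 := countable_fiber T₁.countable_relations
    have h4 : ∀ k, Countable ((T₁.lang.sum (cL C)).Relations k) := fun k =>
      inferInstanceAs (Countable (T₁.lang.Relations k ⊕ Empty))
    infer_instance
  theory := @completeTheory (T₁.lang.sum (cL C)) ℕ (@sumStructure T₁.lang (cL C) ℕ S₁ (cStr g))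
  complete := by
    let := @sumStructure T₁.lang (cL C) ℕ S₁ (cStr g)
    exact completeTheory.isComplete (T₁.lang.sum (cL C)) ℕ

theorem finite_case {T₀ T₁ : CTheory} (C : Type) [T₀.lang.Structure C] [Finite C] [Nonempty C]
    (hC : C ⊨ T₀.theory) (S₁ : T₁.lang.Structure ℕ)
    (hS₁ : @Theory.Model T₁.lang ℕ S₁ T₁.theory) : InterpLE (aleph 1) T₀ T₁ := by
  obtain ⟨g, hg⟩ := exists_injective_nat C
  have hinj : ∀ (M : Type) [(T₁.lang.sum (cL C)).Structure M],
      M ⊨ @completeTheory (T₁.lang.sum (cL C)) ℕ (@sumStructure T₁.lang (cL C) ℕ S₁ (cStr g)) →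
      ∀ x y : C, x ≠ y → (dc T₁.lang x : M) ≠ dc T₁.lang y := by
    intro M _ hM x y hxy
    let := @sumStructure T₁.lang (cL C) ℕ S₁ (cStr g)
    exact UDef.transfer (P := fun M _ => ¬ (dc T₁.lang x : M) = dc T₁.lang y)
      (UDef.not (UDef.eq (ufun_dc _) (ufun_dc _))) hM (fun h => hxy (hg h))
  refine ⟨aleph 1, fun κ hκ _ => ⟨finCT T₁ C S₁ g, finTuple T₁.lang C T₀.lang,
    homTuple (L := T₁.lang.sum (cL C)) LHom.sumInl, ?_, ?_, ?_⟩⟩
  · intro M iM _ hM
    let : (T₁.lang.sum (cL C)).Structure M := iM
    exact fin_interprets (L := T₁.lang) (hinj M hM) hC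
  · intro M iM _ hM
    let : (T₁.lang.sum (cL C)).Structure M := iM
    let h : T₁.lang →ᴸ T₁.lang.sum (cL C) := LHom.sumInl
    let : T₁.lang.Structure M := h.reduct M
    have : h.IsExpansionOn M := LHom.isExpansionOn_reduct _ M
    have hM₁ : M ⊨ T₁.theory := by
      rw [Theory.model_iff]
      intro σ hσ
      have h1 : @Sentence.Realize T₁.lang ℕ S₁ σ :=
        (@Theory.model_iff T₁.lang ℕ S₁ T₁.theory).1 hS₁ σ hσ
      rw [← LHom.realize_onSentence M h σ]
      refine (Theory.model_iff _).1 hM _ ?_
      let : (cL C).Structure ℕ := cStr g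
      let := @sumStructure T₁.lang (cL C) ℕ S₁ (cStr g)
      have : h.IsExpansionOn ℕ := LHom.sumInl_isExpansionOn ℕ
      show h.onSentence σ ∈ (T₁.lang.sum (cL C)).completeTheory ℕ
      rw [mem_completeTheory, LHom.realize_onSentence]
      exact h1
    exact interprets_of (L := T₁.lang.sum (cL C)) h hM₁
  · intro M iM _ hM hsat S₀' S₁' hS₀' hS₁' hsat₁
    let : (T₁.lang.sum (cL C)).Structure M := iM
    have hfin : Finite ((finTuple T₁.lang C T₀.lang).Dom M) :=
      Finite.of_equiv C (finEquiv (L₀ := T₀.lang) (hinj M hM))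
    exact @isSaturated_of_finite T₀.lang _ S₀' hfin κ

/-- Every stable theory is below every unstable theory in the order of interpretability with
subscript `ℵ₁`. -/
theorem stable_le_unstable (T₀ T₁ : CTheory) (hT₀ : T₀.Stable) (hT₁ : T₁.Unstable) :
    InterpLE (aleph 1) T₀ T₁ := by
  classical
  -- the unstable theory
  obtain ⟨M, _, _, hM, m, n, φ, a, b, hab⟩ := hT₁
  have hinf : Infinite M := by
    by_contra hfin
    have hfin : Finite M := not_infinite_iff_finite.1 hfin
    have h1 : ∀ i j, i < j → b i ≠ b j := by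
      intro i j hij h
      have h2 := (hab i j).2 hij
      rw [← h] at h2
      exact lt_irrefl _ ((hab i i).1 h2)
    have h2 : Function.Injective b := by
      intro i j h
      rcases lt_trichotomy i j with h3 | h3 | h3
      · exact absurd h (h1 i j h3)
      · exact h3
      · exact absurd h.symm (h1 j i h3)
    exact not_injective_infinite_finite b h2
  obtain ⟨S₁, f, hf, hreal⟩ := exists_nat_model T₁.countable_functions T₁.countable_relations M
    ((⋃ i, Set.range (a i)) ∪ ⋃ j, Set.range (b j))
    ((Set.countable_iUnion fun i => Set.countable_range _).union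
      (Set.countable_iUnion fun i => Set.countable_range _))
  choose a' ha' using fun i r => hf (a i r) (Or.inl (Set.mem_iUnion.2 ⟨i, r, rfl⟩))
  choose b' hb' using fun i r => hf (b i r) (Or.inr (Set.mem_iUnion.2 ⟨i, r, rfl⟩))
  have hφ : ∀ i j, @Formula.Realize T₁.lang ℕ S₁ _ φ (Sum.elim (a' i) (b' j)) ↔ i < j := by
    intro i j
    rw [hreal]
    have : f ∘ Sum.elim (a' i) (b' j) = Sum.elim (a i) (b j) := by
      funext k
      rcases k with k | k
      · exact ha' i k
      · exact hb' j k
    rw [this]
    exact hab i j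
  have hS₁ : @Theory.Model T₁.lang ℕ S₁ T₁.theory := by
    rw [@Theory.model_iff T₁.lang ℕ S₁]
    intro σ hσ
    have h2 := (Theory.model_iff _).1 hM σ hσ
    have h1 := (hreal Empty σ default)
    rw [Subsingleton.elim (f ∘ (default : Empty → ℕ)) default] at h1
    refine (iff_of_eq (congrArg (@Formula.Realize T₁.lang ℕ S₁ Empty σ)
      (Subsingleton.elim _ _))).1 (h1.2 ?_)
    exact (iff_of_eq (congrArg (Formula.Realize σ) (Subsingleton.elim _ _))).1 h2
  -- the stable theory
  by_cases hT : ∃ (N : Type) (_ : T₀.lang.Structure N), Infinite N ∧ N ⊨ T₀.theory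
  · obtain ⟨N, _, _, hN⟩ := hT
    obtain ⟨S₀, f₀, -, hreal₀⟩ := exists_nat_model T₀.countable_functions
      T₀.countable_relations N ∅ Set.countable_empty
    have hS₀ : @Theory.Model T₀.lang ℕ S₀ T₀.theory := by
      rw [@Theory.model_iff T₀.lang ℕ S₀]
      intro σ hσ
      have h2 := (Theory.model_iff _).1 hN σ hσ
      have h1 := (hreal₀ Empty σ default)
      rw [Subsingleton.elim (f₀ ∘ (default : Empty → ℕ)) default] at h1
      refine (iff_of_eq (congrArg (@Formula.Realize T₀.lang ℕ S₀ Empty σ)
        (Subsingleton.elim _ _))).1 (h1.2 ?_)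
      exact (iff_of_eq (congrArg (Formula.Realize σ) (Subsingleton.elim _ _))).1 h2
    exact infinite_case hT₀ S₀ hS₀ S₁ hS₁ a' b' φ hφ
  · obtain ⟨N⟩ := T₀.complete.1
    have hfin : Finite N := by
      by_contra hinf
      exact hT ⟨N, inferInstance, not_finite_iff_infinite.1 hinf, inferInstance⟩
    exact finite_case N inferInstance S₁ hS₁

end Pool.Agent.Lib.MP_491b55_lc.Pos
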