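import Pool.Agent.Lib.MP_491b55_lc.Pos.UDef

/-!
# The language and the standard structure

The standard structure is the set of natural numbers with a model of each of the two theories on
it, the order, coding of finite sequences, and the sequences witnessing the order property.
-/

set_option autoImplicit false

open FirstOrder FirstOrder.Language Set

namespace Pool.Agent.Lib.MP_491b55_lc.Pos

/-- The auxiliary function symbols. -/
inductive AuxFn (m n : ℕ) : ℕ → Type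
  | c (k : ℕ) : AuxFn m n 0
  | len : AuxFn m n 1
  | A (r : Fin m) : AuxFn m n 1
  | B (r : Fin n) : AuxFn m n 1
  | ev : AuxFn m n 2

/-- The auxiliary relation symbols. -/
inductive AuxRel : ℕ → Type
  | lt : AuxRel 2

/-- The auxiliary language. -/
def auxLang (m n : ℕ) : FirstOrder.Language.{0, 0} := ⟨AuxFn m n, AuxRel⟩

/-- The language. -/
def starLang (L₀ L₁ : FirstOrder.Language.{0, 0}) (m n : ℕ) : FirstOrder.Language.{0, 0} :=
  (L₀.sum L₁).sum (auxLang m n)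

/-- The inclusion of the first language. -/
def hom₀ (L₀ L₁ : FirstOrder.Language.{0, 0}) (m n : ℕ) : L₀ →ᴸ starLang L₀ L₁ m n :=
  (LHom.sumInl : L₀.sum L₁ →ᴸ (L₀.sum L₁).sum (auxLang m n)).comp LHom.sumInl

/-- The inclusion of the second language. -/
def hom₁ (L₀ L₁ : FirstOrder.Language.{0, 0}) (m n : ℕ) : L₁ →ᴸ starLang L₀ L₁ m n :=
  (LHom.sumInl : L₀.sum L₁ →ᴸ (L₀.sum L₁).sum (auxLang m n)).comp LHom.sumInr

section defs

variable (L₀ L₁ : FirstOrder.Language.{0, 0}) (m n : ℕ) {M : Type}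
  [(starLang L₀ L₁ m n).Structure M]

/-- the constants -/
def cst (k : ℕ) : M := Structure.funMap (L := starLang L₀ L₁ m n) (Sum.inr (AuxFn.c k)) ![]

/-- the length of a sequence -/
def len (x : M) : M := Structure.funMap (L := starLang L₀ L₁ m n) (Sum.inr AuxFn.len) ![x]

/-- the first sequence of the order property -/
def fA (r : Fin m) (x : M) : M :=
  Structure.funMap (L := starLang L₀ L₁ m n) (Sum.inr (AuxFn.A r)) ![x]

/-- the second sequence of the order property -/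
def fB (r : Fin n) (x : M) : M :=
  Structure.funMap (L := starLang L₀ L₁ m n) (Sum.inr (AuxFn.B r)) ![x]

/-- the entries of a sequence -/
def ev (x y : M) : M := Structure.funMap (L := starLang L₀ L₁ m n) (Sum.inr AuxFn.ev) ![x, y]

/-- the order -/
def lt (x y : M) : Prop := Structure.RelMap (L := starLang L₀ L₁ m n) (Sum.inr AuxRel.lt) ![x, y]

end defs

section ufun

variable {L₀ L₁ : FirstOrder.Language.{0, 0}} {m n : ℕ} {α : Type}

theorem ufun_cst (k : ℕ) :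
    UFun (starLang L₀ L₁ m n) (α := α) fun M _ _ => (cst L₀ L₁ m n k : M) := UFun.fn0 _

theorem ufun_len {f : ∀ (M : Type) [(starLang L₀ L₁ m n).Structure M], (α → M) → M}
    (hf : UFun (starLang L₀ L₁ m n) f) :
    UFun (starLang L₀ L₁ m n) fun M _ v => len L₀ L₁ m n (f M v) := UFun.fn1 _ hf

theorem ufun_A (r : Fin m) {f : ∀ (M : Type) [(starLang L₀ L₁ m n).Structure M], (α → M) → M}
    (hf : UFun (starLang L₀ L₁ m n) f) :
    UFun (starLang L₀ L₁ m n) fun M _ v => fA L₀ L₁ m n r (f M v) := UFun.fn1 _ hf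

theorem ufun_B (r : Fin n) {f : ∀ (M : Type) [(starLang L₀ L₁ m n).Structure M], (α → M) → M}
    (hf : UFun (starLang L₀ L₁ m n) f) :
    UFun (starLang L₀ L₁ m n) fun M _ v => fB L₀ L₁ m n r (f M v) := UFun.fn1 _ hf

theorem ufun_ev {f g : ∀ (M : Type) [(starLang L₀ L₁ m n).Structure M], (α → M) → M}
    (hf : UFun (starLang L₀ L₁ m n) f) (hg : UFun (starLang L₀ L₁ m n) g) :
    UFun (starLang L₀ L₁ m n) fun M _ v => ev L₀ L₁ m n (f M v) (g M v) := UFun.fn2 _ hf hg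

theorem udef_lt {f g : ∀ (M : Type) [(starLang L₀ L₁ m n).Structure M], (α → M) → M}
    (hf : UFun (starLang L₀ L₁ m n) f) (hg : UFun (starLang L₀ L₁ m n) g) :
    UDef (starLang L₀ L₁ m n) fun M _ v => lt L₀ L₁ m n (f M v) (g M v) := UDef.rel2 _ hf hg

end ufun

/-! ### The standard structure -/

/-- Coding of finite sequences of natural numbers. -/
noncomputable def dec (s : ℕ) : List ℕ := (Encodable.decode (α := List ℕ) s).getD []

theorem dec_encode (l : List ℕ) : dec (Encodable.encode l) = l := by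
  simp [dec]

/-- The auxiliary structure on the natural numbers. -/
@[reducible] noncomputable def auxStr {m n : ℕ} (a : ℕ → Fin m → ℕ) (b : ℕ → Fin n → ℕ) :
    (auxLang m n).Structure ℕ where
  funMap := fun {k} (f : AuxFn m n k) => match k, f with
    | _, .c k => fun _ => k
    | _, .len => fun v => (dec (v 0)).length
    | _, .A r => fun v => a (v 0) r
    | _, .B r => fun v => b (v 0) r
    | _, .ev => fun v => (dec (v 0)).getD (v 1) 0
  RelMap := fun {k} (f : AuxRel k) => match k, f with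
    | _, .lt => fun v => v 0 < v 1

/-- The standard structure. -/
@[reducible] noncomputable def stdStr {L₀ L₁ : FirstOrder.Language.{0, 0}} {m n : ℕ} (S₀ : L₀.Structure ℕ)
    (S₁ : L₁.Structure ℕ) (a : ℕ → Fin m → ℕ) (b : ℕ → Fin n → ℕ) :
    (starLang L₀ L₁ m n).Structure ℕ :=
  @sumStructure (L₀.sum L₁) (auxLang m n) ℕ (@sumStructure L₀ L₁ ℕ S₀ S₁) (auxStr a b)

/-- The theory of the standard structure. -/
noncomputable def starTheory {L₀ L₁ : FirstOrder.Language.{0, 0}} {m n : ℕ}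
    (S₀ : L₀.Structure ℕ) (S₁ : L₁.Structure ℕ) (a : ℕ → Fin m → ℕ) (b : ℕ → Fin n → ℕ) :
    (starLang L₀ L₁ m n).Theory :=
  @completeTheory (starLang L₀ L₁ m n) ℕ (stdStr S₀ S₁ a b)

section transfer

variable {L₀ L₁ : FirstOrder.Language.{0, 0}} {m n : ℕ} {S₀ : L₀.Structure ℕ}
  {S₁ : L₁.Structure ℕ} {a : ℕ → Fin m → ℕ} {b : ℕ → Fin n → ℕ}
  {M : Type} [(starLang L₀ L₁ m n).Structure M] (hM : M ⊨ starTheory S₀ S₁ a b)

theorem transfer {P : ∀ (M : Type) [(starLang L₀ L₁ m n).Structure M], Prop}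
    (hM : M ⊨ starTheory S₀ S₁ a b)
    (h : UDef (starLang L₀ L₁ m n) (α := Empty) fun M _ _ => P M)
    (hS : @P ℕ (stdStr S₀ S₁ a b)) : P M := by
  let := stdStr S₀ S₁ a b
  exact UDef.transfer h hM hS

include hM

theorem lt_irrefl' (x : M) : ¬ lt L₀ L₁ m n x x :=
  transfer (P := fun M _ => ∀ x : M, ¬ lt L₀ L₁ m n x x) hM
    (UDef.fa (UDef.not (udef_lt (UFun.var _) (UFun.var _)))) (fun x => Nat.lt_irrefl x) x

theorem lt_trans' (x y z : M) : lt L₀ L₁ m n x y → lt L₀ L₁ m n y z → lt L₀ L₁ m n x z :=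
  transfer (P := fun M _ => ∀ x y z : M, lt L₀ L₁ m n x y → lt L₀ L₁ m n y z → lt L₀ L₁ m n x z)
    hM (UDef.fa (UDef.fa (UDef.fa (UDef.imp (udef_lt (UFun.var _) (UFun.var _))
      (UDef.imp (udef_lt (UFun.var _) (UFun.var _)) (udef_lt (UFun.var _) (UFun.var _)))))))
    (fun x y z (h : x < y) (h' : y < z) => h.trans h') x y z

theorem lt_total' (x y : M) : lt L₀ L₁ m n x y ∨ x = y ∨ lt L₀ L₁ m n y x :=
  transfer (P := fun M _ => ∀ x y : M, lt L₀ L₁ m n x y ∨ x = y ∨ lt L₀ L₁ m n y x)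
    hM (UDef.fa (UDef.fa (UDef.or (udef_lt (UFun.var _) (UFun.var _))
      (UDef.or (UDef.eq (UFun.var _) (UFun.var _)) (udef_lt (UFun.var _) (UFun.var _))))))
    (fun x y => lt_trichotomy x y) x y

theorem cst_lt {i j : ℕ} (h : i < j) : lt L₀ L₁ m n (cst L₀ L₁ m n i) (cst L₀ L₁ m n j : M) :=
  transfer (P := fun M _ => lt L₀ L₁ m n (cst L₀ L₁ m n i) (cst L₀ L₁ m n j : M)) hM
    (udef_lt (ufun_cst _) (ufun_cst _)) (show i < j from h)

theorem lt_cst (k : ℕ) (x : M) (hx : lt L₀ L₁ m n x (cst L₀ L₁ m n k)) :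
    ∃ i : Fin k, x = cst L₀ L₁ m n i :=
  transfer (P := fun M _ => ∀ x : M, lt L₀ L₁ m n x (cst L₀ L₁ m n k) →
      ∃ i : Fin k, x = cst L₀ L₁ m n i) hM
    (UDef.fa (UDef.imp (udef_lt (UFun.var _) (ufun_cst _))
      (UDef.any fun _ => UDef.eq (UFun.var _) (ufun_cst _))))
    (fun x (hx : x < k) => ⟨⟨x, hx⟩, rfl⟩) x hx

theorem exists_pred (x : M) (hx : x ≠ cst L₀ L₁ m n 0) :
    ∃ y, lt L₀ L₁ m n y x ∧ ∀ z, ¬ (lt L₀ L₁ m n y z ∧ lt L₀ L₁ m n z x) :=
  transfer (P := fun M _ => ∀ x : M, ¬ x = cst L₀ L₁ m n 0 →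
      ∃ y, lt L₀ L₁ m n y x ∧ ∀ z, ¬ (lt L₀ L₁ m n y z ∧ lt L₀ L₁ m n z x)) hM
    (UDef.fa (UDef.imp (UDef.not (UDef.eq (UFun.var _) (ufun_cst _)))
      (UDef.ex (UDef.and (udef_lt (UFun.var _) (UFun.var _))
        (UDef.fa (UDef.not (UDef.and (udef_lt (UFun.var _) (UFun.var _))
          (udef_lt (UFun.var _) (UFun.var _)))))))))
    (fun x (hx : ¬ x = 0) => ⟨x - 1, (by omega : x - 1 < x), fun z h => by
      have h1 : x - 1 < z := h.1
      have h2 : z < x := h.2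
      omega⟩) x hx

theorem exists_code (k : ℕ) (u : Fin k → M) :
    ∃ s, len L₀ L₁ m n s = cst L₀ L₁ m n k ∧
      ∀ t : Fin k, ev L₀ L₁ m n s (cst L₀ L₁ m n t) = u t :=
  transfer (P := fun M _ => ∀ u : Fin k → M, ∃ s, len L₀ L₁ m n s = cst L₀ L₁ m n k ∧
      ∀ t : Fin k, ev L₀ L₁ m n s (cst L₀ L₁ m n t) = u t) hM
    (UDef.alls (UDef.ex (UDef.and (UDef.eq (ufun_len (UFun.var _)) (ufun_cst _))
      (UDef.all fun t => UDef.eq (ufun_ev (UFun.var _) (ufun_cst _)) (UFun.var _)))))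
    (fun u : Fin k → ℕ => ⟨Encodable.encode (List.ofFn u), by
      show (dec (Encodable.encode (List.ofFn u))).length = k
      rw [dec_encode]; simp, fun t => by
      show (dec (Encodable.encode (List.ofFn u))).getD t 0 = u t
      rw [dec_encode]; simp⟩) u

omit hM in
theorem expansion₀ : @LHom.IsExpansionOn L₀ (starLang L₀ L₁ m n) (hom₀ L₀ L₁ m n) ℕ S₀
    (stdStr S₀ S₁ a b) :=
  @LHom.IsExpansionOn.mk L₀ (starLang L₀ L₁ m n) (hom₀ L₀ L₁ m n) ℕ S₀ (stdStr S₀ S₁ a b)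
    (fun _ _ => rfl) fun _ _ => rfl

omit hM in
theorem expansion₁ : @LHom.IsExpansionOn L₁ (starLang L₀ L₁ m n) (hom₁ L₀ L₁ m n) ℕ S₁
    (stdStr S₀ S₁ a b) :=
  @LHom.IsExpansionOn.mk L₁ (starLang L₀ L₁ m n) (hom₁ L₀ L₁ m n) ℕ S₁ (stdStr S₀ S₁ a b)
    (fun _ _ => rfl) fun _ _ => rfl

theorem order_prop (φ : L₁.Formula (Fin m ⊕ Fin n))
    (hφ : ∀ i j, @Formula.Realize L₁ ℕ S₁ _ φ (Sum.elim (a i) (b j)) ↔ i < j) (x y : M) :
    ((hom₁ L₀ L₁ m n).onFormula φ).Realize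
      (Sum.elim (fun r => fA L₀ L₁ m n r x) fun r => fB L₀ L₁ m n r y) ↔ lt L₀ L₁ m n x y := by
  refine transfer (P := fun M _ => ∀ x y : M, (((hom₁ L₀ L₁ m n).onFormula φ).Realize
      (Sum.elim (fun r => fA L₀ L₁ m n r x) fun r => fB L₀ L₁ m n r y) ↔ lt L₀ L₁ m n x y)) hM
    (UDef.fa (UDef.fa (UDef.iff (UDef.formSum _ (fun r => ufun_A r (UFun.var _))
      (fun r => ufun_B r (UFun.var _))) (udef_lt (UFun.var _) (UFun.var _))))) ?_ x y
  intro x y
  let := stdStr S₀ S₁ a b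
  have := expansion₁ (S₀ := S₀) (S₁ := S₁) (a := a) (b := b)
  rw [LHom.realize_onFormula]
  exact hφ x y

theorem exists_least (φ : L₁.Formula (Fin m ⊕ Fin n)) (u : Fin m → M) (j : M)
    (hj : ((hom₁ L₀ L₁ m n).onFormula φ).Realize (Sum.elim u fun r => fB L₀ L₁ m n r j)) :
    ∃ j : M, ((hom₁ L₀ L₁ m n).onFormula φ).Realize (Sum.elim u fun r => fB L₀ L₁ m n r j) ∧
      ∀ j', lt L₀ L₁ m n j' j → ¬ ((hom₁ L₀ L₁ m n).onFormula φ).Realize
        (Sum.elim u fun r => fB L₀ L₁ m n r j') := by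
  refine transfer (P := fun M _ => ∀ u : Fin m → M,
    (∃ j : M, ((hom₁ L₀ L₁ m n).onFormula φ).Realize (Sum.elim u fun r => fB L₀ L₁ m n r j)) →
    ∃ j : M, ((hom₁ L₀ L₁ m n).onFormula φ).Realize (Sum.elim u fun r => fB L₀ L₁ m n r j) ∧
      ∀ j', lt L₀ L₁ m n j' j → ¬ ((hom₁ L₀ L₁ m n).onFormula φ).Realize
        (Sum.elim u fun r => fB L₀ L₁ m n r j')) hM
    (UDef.alls (UDef.imp (UDef.ex (UDef.formSum _ (fun r => UFun.var _)
      (fun r => ufun_B r (UFun.var _)))) (UDef.ex (UDef.and (UDef.formSum _ (fun r => UFun.var _)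
      (fun r => ufun_B r (UFun.var _))) (UDef.fa (UDef.imp (udef_lt (UFun.var _) (UFun.var _))
      (UDef.not (UDef.formSum _ (fun r => UFun.var _)
      (fun r => ufun_B r (UFun.var _)))))))))) ?_ u ⟨j, hj⟩
  rintro u ⟨j, hj⟩
  let := stdStr S₀ S₁ a b
  classical
  let Q : ℕ → Prop := fun j : ℕ =>
    ((hom₁ L₀ L₁ m n).onFormula φ).Realize (Sum.elim u fun r => fB L₀ L₁ m n r j)
  have hQ : ∃ j, Q j := ⟨j, hj⟩
  exact ⟨Nat.find hQ, Nat.find_spec hQ, fun j' hj' => Nat.find_min hQ hj'⟩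

end transfer

end Pool.Agent.Lib.MP_491b55_lc.Pos
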